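import Mathlib

/-!
# The square root and the cube root of the discriminant in the field of 2-torsion and 3-torsion points
-/

set_option autoImplicit false

namespace Pool.Agent.Q19.FM

open Polynomial

variable {F : Type*} [Field F] [IsAlgClosed F]

/-- the three roots of the cubic -/
theorem cubic (A B : F) : ∃ e₁ e₂ e₃ : F,
    (∀ e, e = e₁ ∨ e = e₂ ∨ e = e₃ → e ^ 3 + A * e + B = 0) ∧
    ((e₁ - e₂) * (e₂ - e₃) * (e₃ - e₁)) ^ 2 = -(4 * A ^ 3 + 27 * B ^ 2) := by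
  obtain ⟨e₁, h1⟩ := IsAlgClosed.exists_root (X ^ 3 + C A * X + C B : F[X]) (by
    have : (X ^ 3 + C A * X + C B : F[X]).degree = 3 := by compute_degree!
    rw [this]
    norm_num)
  rw [IsRoot.def] at h1
  simp only [eval_add, eval_pow, eval_X, eval_mul, eval_C] at h1
  obtain ⟨e₂, h2⟩ := IsAlgClosed.exists_root (X ^ 2 + C e₁ * X + C (e₁ ^ 2 + A) : F[X]) (by
    have : (X ^ 2 + C e₁ * X + C (e₁ ^ 2 + A) : F[X]).degree = 2 := by compute_degree!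
    rw [this]
    norm_num)
  rw [IsRoot.def] at h2
  simp only [eval_add, eval_pow, eval_X, eval_mul, eval_C] at h2
  refine ⟨e₁, e₂, -e₁ - e₂, ?_, ?_⟩
  · rintro e (rfl | rfl | rfl)
    · exact h1
    · linear_combination (e - e₁) * h2 + h1
    · linear_combination (-2 * e₁ - e₂) * h2 + h1
  · have hA : A = -(e₂ ^ 2 + e₁ * e₂ + e₁ ^ 2) := by linear_combination h2
    have hB : B = -(e₁ ^ 3 + A * e₁) := by linear_combination h1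
    rw [hB, hA]
    ring

/-- the roots of the division polynomial of level three -/
theorem quartic [CharZero F] (A B : F) : ∃ x₁ x₂ x₃ x₄ : F,
    (∀ x, x = x₁ ∨ x = x₂ ∨ x = x₃ ∨ x = x₄ →
      3 * x ^ 4 + 6 * A * x ^ 2 + 12 * B * x - A ^ 2 = 0) ∧
    (3 * (x₁ * x₂ + x₃ * x₄) - 2 * A) ^ 3 = 16 * (4 * A ^ 3 + 27 * B ^ 2) := by
  have h3 : (3 : F) ≠ 0 := by norm_num
  obtain ⟨x₁, h1⟩ := IsAlgClosed.exists_root
    (C 3 * X ^ 4 + C (6 * A) * X ^ 2 + C (12 * B) * X - C (A ^ 2) : F[X]) (by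
    have : (C 3 * X ^ 4 + C (6 * A) * X ^ 2 + C (12 * B) * X - C (A ^ 2) : F[X]).degree = 4 := by
      compute_degree!
    rw [this]
    norm_num)
  rw [IsRoot.def] at h1
  simp only [eval_add, eval_sub, eval_pow, eval_X, eval_mul, eval_C] at h1
  obtain ⟨x₂, h2⟩ := IsAlgClosed.exists_root
    (C 3 * X ^ 3 + C (3 * x₁) * X ^ 2 + C (3 * x₁ ^ 2 + 6 * A) * X +
      C (3 * x₁ ^ 3 + 6 * A * x₁ + 12 * B) : F[X]) (by
    have : (C 3 * X ^ 3 + C (3 * x₁) * X ^ 2 + C (3 * x₁ ^ 2 + 6 * A) * X +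
      C (3 * x₁ ^ 3 + 6 * A * x₁ + 12 * B) : F[X]).degree = 3 := by compute_degree!
    rw [this]
    norm_num)
  rw [IsRoot.def] at h2
  simp only [eval_add, eval_sub, eval_pow, eval_X, eval_mul, eval_C] at h2
  obtain ⟨x₃, h4⟩ := IsAlgClosed.exists_root
    (C 3 * X ^ 2 + C (3 * x₁ + 3 * x₂) * X +
      C (3 * x₁ ^ 2 + 3 * x₁ * x₂ + 3 * x₂ ^ 2 + 6 * A) : F[X]) (by
    have : (C 3 * X ^ 2 + C (3 * x₁ + 3 * x₂) * X +
      C (3 * x₁ ^ 2 + 3 * x₁ * x₂ + 3 * x₂ ^ 2 + 6 * A) : F[X]).degree = 2 := by compute_degree!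
    rw [this]
    norm_num)
  rw [IsRoot.def] at h4
  simp only [eval_add, eval_sub, eval_pow, eval_X, eval_mul, eval_C] at h4
  have k3 : ∀ x : F, 3 * x ^ 4 + 6 * A * x ^ 2 + 12 * B * x - A ^ 2 =
      (x - x₁) * (x - x₂) * (x - x₃) * (3 * (x + x₁ + x₂ + x₃)) := by
    intro x
    linear_combination h1 + (x - x₁) * h2 + (x - x₁) * (x - x₂) * h4
  refine ⟨x₁, x₂, x₃, -x₁ - x₂ - x₃, ?_, ?_⟩
  · rintro x (rfl | rfl | rfl | rfl)
    · rw [k3]; ring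
    · rw [k3]; ring
    · rw [k3]; ring
    · rw [k3]; ring
  · have hA : 6 * A = -(3 * x₃ ^ 2 + (3 * x₁ + 3 * x₂) * x₃ + (3 * x₁ ^ 2 + 3 * x₁ * x₂ +
        3 * x₂ ^ 2)) := by linear_combination h4
    have hA' : A = -(3 * x₃ ^ 2 + (3 * x₁ + 3 * x₂) * x₃ + (3 * x₁ ^ 2 + 3 * x₁ * x₂ +
        3 * x₂ ^ 2)) / 6 := by rw [← hA]; field_simp
    have hB' : B = -(3 * x₂ ^ 3 + 3 * x₁ * x₂ ^ 2 + (3 * x₁ ^ 2 + 6 * A) * x₂ + 3 * x₁ ^ 3 +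
        6 * A * x₁) / 12 := by
      field_simp
      linear_combination h2
    have e4 : 3 * (x₁ * x₂ * x₃ * (-x₁ - x₂ - x₃)) + A ^ 2 = 0 := by
      linear_combination -(k3 0)
    have id1 : ∀ a b : F, a = -(3 * x₃ ^ 2 + (3 * x₁ + 3 * x₂) * x₃ + (3 * x₁ ^ 2 + 3 * x₁ * x₂ +
        3 * x₂ ^ 2)) / 6 → b = -(3 * x₂ ^ 3 + 3 * x₁ * x₂ ^ 2 + (3 * x₁ ^ 2 + 6 * a) * x₂ +
        3 * x₁ ^ 3 + 6 * a * x₁) / 12 →
        (x₁ * x₂ + x₃ * (-x₁ - x₂ - x₃)) ^ 3 - 2 * a * (x₁ * x₂ + x₃ * (-x₁ - x₂ - x₃)) ^ 2 -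
          4 * (x₁ * x₂ * x₃ * (-x₁ - x₂ - x₃)) * (x₁ * x₂ + x₃ * (-x₁ - x₂ - x₃)) - 16 * b ^ 2 +
          8 * a * (x₁ * x₂ * x₃ * (-x₁ - x₂ - x₃)) = 0 := by
      intro a b ha hb
      subst hb
      subst ha
      field_simp
      ring
    have id2 := id1 A B hA' hB'
    linear_combination 27 * id2 + (36 * (x₁ * x₂ + x₃ * (-x₁ - x₂ - x₃)) - 72 * A) * e4

end Pool.Agent.Q19.FM
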