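import Mathlib

/-!
# Points of order two and three on `y² = x³ + Ax + B`
-/

set_option autoImplicit false

namespace Pool.Agent.Q19.FM

open WeierstrassCurve.Affine

variable {F : Type*} [Field F]

theorem nonsing {W : WeierstrassCurve.Affine F} (h1 : W.a₁ = 0) (h2 : W.a₂ = 0) (h3 : W.a₃ = 0)
    (h20 : (2 : F) ≠ 0) (hD : 4 * W.a₄ ^ 3 + 27 * W.a₆ ^ 2 ≠ 0) {x y : F}
    (h : y ^ 2 = x ^ 3 + W.a₄ * x + W.a₆) : W.Nonsingular x y := by
  rw [nonsingular_iff', equation_iff', h1, h2, h3]
  refine ⟨by linear_combination h, ?_⟩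
  by_contra hc
  rw [not_or, not_not, not_not] at hc
  obtain ⟨c1, c2⟩ := hc
  have hy : y = 0 := by
    have : 2 * y = 0 := by linear_combination c2
    exact (mul_eq_zero.1 this).resolve_left h20
  subst hy
  apply hD
  have e1 : W.a₄ = -(3 * x ^ 2) := by linear_combination -c1
  have e2 : W.a₆ = 2 * x ^ 3 := by
    linear_combination -h - x * e1
  rw [e1, e2]
  ring

theorem two_tors [DecidableEq F] {W : WeierstrassCurve.Affine F} (h1 : W.a₁ = 0) (h3 : W.a₃ = 0)
    {x : F} (h : W.Nonsingular x 0) : (2 : ℕ) • (Point.some x 0 h : W.Point) = 0 := by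
  rw [two_nsmul]
  refine Point.add_self_of_Y_eq ?_
  rw [negY, h1, h3]
  ring

theorem three_tors [DecidableEq F] {W : WeierstrassCurve.Affine F} (h1 : W.a₁ = 0) (h2 : W.a₂ = 0)
    (h3 : W.a₃ = 0) (h20 : (2 : F) ≠ 0) {x y : F} (h : W.Nonsingular x y) (hy : y ≠ 0)
    (hψ : (3 * x ^ 2 + W.a₄) ^ 2 = 12 * x * y ^ 2) :
    (3 : ℕ) • (Point.some x y h : W.Point) = 0 := by
  have hne : y ≠ W.negY x y := by
    rw [negY, h1, h3]
    intro hc
    apply hy
    have : 2 * y = 0 := by linear_combination hc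
    exact (mul_eq_zero.1 this).resolve_left h20
  have hs : W.slope x x y y = (3 * x ^ 2 + W.a₄) / (2 * y) := by
    rw [slope_of_Y_ne rfl hne, negY, h1, h2, h3]
    ring
  have hX : W.addX x x (W.slope x x y y) = x := by
    rw [addX, hs, h1, h2, div_pow]
    field_simp
    linear_combination hψ
  have h2P : (Point.some x y h : W.Point) + Point.some x y h = -Point.some x y h := by
    rw [Point.add_self_of_Y_ne hne, Point.neg_some]
    congr 1
    rw [addY, negAddY, hX]
    ring
  rw [show (3 : ℕ) = 2 + 1 from rfl, succ_nsmul, two_nsmul, h2P]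
  exact neg_add_cancel _

end Pool.Agent.Q19.FM
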