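import Pool.Agent.Q19.FM.Val
import Pool.Agent.Q19.FM.Alg
import Pool.Agent.Q19.FM.Pts

/-!
# Forms of powers of elliptic curves: a prime at which all torsion fields are unramified
-/

set_option autoImplicit false

namespace Pool.Agent.Q19.FM

open NumberField IsDedekindDomain WeierstrassCurve

open scoped Classical in
/-- the points over `K̄` of `y² = x³ + Ax + B` -/
abbrev PA {K : Type} [Field K] (A B : K) : Type :=
  (((⟨0, 0, 0, A, B⟩ : WeierstrassCurve K)).baseChange (AlgebraicClosure K)).toAffine.Point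

open scoped Classical in
/-- the action of `σ ∈ Gal(K̄/K)` on `E(K̄)` -/
noncomputable def ga {K : Type} [Field K] (A B : K)
    (σ : AlgebraicClosure K ≃ₐ[K] AlgebraicClosure K) : PA A B →+ PA A B :=
  WeierstrassCurve.Affine.Point.map (σ : AlgebraicClosure K →ₐ[K] AlgebraicClosure K)

variable {K : Type} [Field K] [NumberField K]

open scoped Classical in
theorem ga_some (A B : K) (σ : AlgebraicClosure K ≃ₐ[K] AlgebraicClosure K)
    {x y : AlgebraicClosure K} (h) : ∃ h', ga A B σ (Affine.Point.some x y h) =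
      Affine.Point.some (σ x) (σ y) h' := ⟨_, rfl⟩

open scoped Classical in
/-- a point of order two or three of given abscissa, fixed up to sign -/
theorem fix_x {A B : K} {σ : AlgebraicClosure K ≃ₐ[K] AlgebraicClosure K}
    {x y : AlgebraicClosure K} {h}
    (hσ : ga A B σ (Affine.Point.some x y h) = Affine.Point.some x y h ∨
      ga A B σ (Affine.Point.some x y h) = -Affine.Point.some x y h) : σ x = x := by
  obtain ⟨h', e⟩ := ga_some A B σ h
  rw [e] at hσ
  rcases hσ with h1 | h1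
  · exact (Affine.Point.some.inj h1).1
  · rw [Affine.Point.neg_some] at h1
    exact (Affine.Point.some.inj h1).1

theorem disc_map {A B : K} (hD : 4 * A ^ 3 + 27 * B ^ 2 ≠ 0) :
    4 * (((⟨0, 0, 0, A, B⟩ : WeierstrassCurve K)).baseChange
      (AlgebraicClosure K)).toAffine.a₄ ^ 3 + 27 * (((⟨0, 0, 0, A, B⟩ : WeierstrassCurve K)).baseChange
      (AlgebraicClosure K)).toAffine.a₆ ^ 2 ≠ 0 := by
  change 4 * (algebraMap K (AlgebraicClosure K) A) ^ 3 +
    27 * (algebraMap K (AlgebraicClosure K) B) ^ 2 ≠ 0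
  have e : 4 * (algebraMap K (AlgebraicClosure K) A) ^ 3 +
    27 * (algebraMap K (AlgebraicClosure K) B) ^ 2 =
      algebraMap K (AlgebraicClosure K) (4 * A ^ 3 + 27 * B ^ 2) := by
    simp only [map_mul, map_add, map_pow, map_ofNat]
  rw [e]
  exact (map_ne_zero _).2 hD

open scoped Classical in
/-- abscissas of points of order two -/
theorem x_two {A B : K} (hD : 4 * A ^ 3 + 27 * B ^ 2 ≠ 0) {e : AlgebraicClosure K}
    (he : e ^ 3 + algebraMap K _ A * e + algebraMap K _ B = 0) :
    ∃ y h, (2 : ℕ) • (Affine.Point.some e y h : PA A B) = 0 := by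
  have h0 : (((⟨0, 0, 0, A, B⟩ : WeierstrassCurve K)).baseChange
      (AlgebraicClosure K)).toAffine.Nonsingular e 0 :=
    nonsing (map_zero _) (map_zero _) (map_zero _) two_ne_zero (disc_map hD) (by
      change (0 : AlgebraicClosure K) ^ 2 = e ^ 3 + algebraMap K _ A * e + algebraMap K _ B
      rw [he]
      ring)
  exact ⟨0, h0, two_tors (map_zero _) (map_zero _) h0⟩

open scoped Classical in
/-- abscissas of points of order three -/
theorem x_three {A B : K} (hD : 4 * A ^ 3 + 27 * B ^ 2 ≠ 0) {x : AlgebraicClosure K}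
    (hx : 3 * x ^ 4 + 6 * algebraMap K _ A * x ^ 2 + 12 * algebraMap K _ B * x -
      (algebraMap K _ A) ^ 2 = 0) :
    ∃ y h, (3 : ℕ) • (Affine.Point.some x y h : PA A B) = 0 := by
  obtain ⟨y, hy⟩ := IsAlgClosed.exists_pow_nat_eq
    (x ^ 3 + algebraMap K (AlgebraicClosure K) A * x + algebraMap K _ B) (n := 2) (by norm_num)
  have h0 : (((⟨0, 0, 0, A, B⟩ : WeierstrassCurve K)).baseChange
      (AlgebraicClosure K)).toAffine.Nonsingular x y :=
    nonsing (map_zero _) (map_zero _) (map_zero _) two_ne_zero (disc_map hD) hy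
  have hψ : (3 * x ^ 2 + algebraMap K (AlgebraicClosure K) A) ^ 2 = 12 * x * y ^ 2 := by
    rw [hy]
    linear_combination -hx
  have hy0 : y ≠ 0 := by
    intro hy0
    rw [hy0] at hψ hy
    have h1 : 3 * x ^ 2 + algebraMap K (AlgebraicClosure K) A = 0 := by
      have h2 : (3 * x ^ 2 + algebraMap K (AlgebraicClosure K) A) ^ 2 = 0 := by
        rw [hψ]
        ring
      exact pow_eq_zero_iff (two_ne_zero) |>.1 h2
    have h2 := disc_map hD
    apply h2
    change 4 * (algebraMap K (AlgebraicClosure K) A) ^ 3 +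
      27 * (algebraMap K (AlgebraicClosure K) B) ^ 2 = 0
    have e1 : algebraMap K (AlgebraicClosure K) A = -(3 * x ^ 2) := by linear_combination h1
    have e2 : algebraMap K (AlgebraicClosure K) B = 2 * x ^ 3 := by
      linear_combination -hy - x * e1
    rw [e1, e2]
    ring
  exact ⟨y, h0, three_tors (map_zero _) (map_zero _) (map_zero _) two_ne_zero h0 hy0 hψ⟩

open scoped Classical in
/-- the action of the Galois group on the form of `E ^ g` given by `ρ` -/
noncomputable def tw {A B : K} {g : ℕ}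
    (ρ : (AlgebraicClosure K ≃ₐ[K] AlgebraicClosure K) →* GL (Fin g) ℤ)
    (σ : AlgebraicClosure K ≃ₐ[K] AlgebraicClosure K) (x : Fin g → PA A B) : Fin g → PA A B :=
  fun i => ∑ k, (ρ σ : Matrix (Fin g) (Fin g) ℤ) i k • ga A B σ (x k)

theorem scalar_gen {V : Type*} [AddCommGroup V] (f : V →+ V) {g : ℕ} (hg : 0 < g)
    (N : Matrix (Fin g) (Fin g) ℤ) {m : ℕ}
    (h : ∀ x : Fin g → V, m • x = 0 → (fun i => ∑ k, N i k • f (x k)) = x) :
    ∃ a : ℤ, ∀ P : V, m • P = 0 → a • f P = P := by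
  refine ⟨N ⟨0, hg⟩ ⟨0, hg⟩, fun P hP => ?_⟩
  have h1 : ∑ k, N ⟨0, hg⟩ k • f ((Pi.single ⟨0, hg⟩ P : Fin g → V) k) =
      (Pi.single ⟨0, hg⟩ P : Fin g → V) ⟨0, hg⟩ := congrFun (h (Pi.single ⟨0, hg⟩ P) (by
    funext i
    by_cases hi : i = ⟨0, hg⟩
    · subst hi
      simp [hP]
    · simp [hi])) ⟨0, hg⟩
  rw [Finset.sum_eq_single (⟨0, hg⟩ : Fin g), Pi.single_eq_same] at h1
  · exact h1
  · intro k _ hk
    rw [Pi.single_eq_of_ne hk, map_zero, smul_zero]
  · intro hk
    exact absurd (Finset.mem_univ _) hk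

theorem scalar_two_gen {V : Type*} [AddCommGroup V] (f : V →+ V) {a : ℤ}
    (h : ∀ P : V, (2 : ℕ) • P = 0 → a • f P = P) {P : V} (hP : (2 : ℕ) • P = 0) : f P = P := by
  have h1 := h P hP
  have h2 : (2 : ℤ) • f P = 0 := by
    have h3 := congrArg f hP
    rw [map_nsmul, map_zero] at h3
    exact_mod_cast h3
  rcases Int.even_or_odd' a with ⟨k, hk | hk⟩
  · have h3 : P = 0 := by
      rw [← h1, hk, mul_comm, mul_smul, h2, smul_zero]
    rw [h3, map_zero]
  · rw [hk, add_smul, one_smul, mul_comm, mul_smul, h2, smul_zero, zero_add] at h1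
    exact h1

theorem scalar_three_gen {V : Type*} [AddCommGroup V] (f : V →+ V) {a : ℤ}
    (h : ∀ P : V, (3 : ℕ) • P = 0 → a • f P = P) {P : V} (hP : (3 : ℕ) • P = 0) :
    f P = P ∨ f P = -P := by
  have h1 := h P hP
  have h2 : (3 : ℤ) • f P = 0 := by
    have h3 := congrArg f hP
    rw [map_nsmul, map_zero] at h3
    exact_mod_cast h3
  have e : a = a % 3 + 3 * (a / 3) := (Int.emod_add_mul_ediv a 3).symm
  have h3 : (a % 3) • f P = P := by
    rw [e, add_smul, mul_comm, mul_smul, h2, smul_zero, add_zero] at h1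
    exact h1
  have h5 : a % 3 = 0 ∨ a % 3 = 1 ∨ a % 3 = 2 := by omega
  rcases h5 with h5 | h5 | h5
  · rw [h5, zero_smul] at h3
    left
    rw [← h3, map_zero]
  · rw [h5, one_smul] at h3
    exact Or.inl h3
  · right
    rw [h5] at h3
    have h6 : (3 : ℤ) • f P = P + f P := by
      rw [show (3 : ℤ) = 2 + 1 by norm_num, add_smul, one_smul, h3]
    rw [h2] at h6
    exact (neg_eq_of_add_eq_zero_right h6.symm).symm

open scoped Classical in
/-- good reduction at `v` of the form of `E ^ g` given by `ρ` (criterion of Néron, Ogg and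
Shafarevich): for all `m` prime to `v`, the extension generated by the points of order `m` (the fixed
field of the automorphisms which act trivially on them) is unramified at `v`, that is, its elements
have the values of elements of the base field, for each valuation ring above `v` -/
def Good (v : HeightOneSpectrum (𝓞 K)) (A B : K) {g : ℕ}
    (ρ : (AlgebraicClosure K ≃ₐ[K] AlgebraicClosure K) →* GL (Fin g) ℤ) : Prop :=
  ∀ m : ℕ, v.valuation K (m : K) = 1 → ∀ O : ValuationSubring (AlgebraicClosure K),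
    (∀ x : K, algebraMap K (AlgebraicClosure K) x ∈ O ↔ v.valuation K x ≤ 1) →
    ∀ z : AlgebraicClosure K, z ≠ 0 →
      (∀ σ : AlgebraicClosure K ≃ₐ[K] AlgebraicClosure K,
        (∀ x : Fin g → PA A B, m • x = 0 → tw ρ σ x = x) → σ z = z) →
      ∃ y : K, y ≠ 0 ∧ z / algebraMap K (AlgebraicClosure K) y ∈ O ∧
        algebraMap K (AlgebraicClosure K) y / z ∈ O

theorem val23 {v : HeightOneSpectrum (𝓞 K)} (h : v.valuation K 6 = 1) :
    v.valuation K ((2 : ℕ) : K) = 1 ∧ v.valuation K ((3 : ℕ) : K) = 1 := by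
  have e2 : v.valuation K ((2 : ℕ) : K) ≤ 1 := by
    rw [← map_natCast (algebraMap (𝓞 K) K) 2]
    exact v.valuation_le_one _
  have e3 : v.valuation K ((3 : ℕ) : K) ≤ 1 := by
    rw [← map_natCast (algebraMap (𝓞 K) K) 3]
    exact v.valuation_le_one _
  have e6 : v.valuation K ((2 : ℕ) : K) * v.valuation K ((3 : ℕ) : K) = 1 := by
    rw [← map_mul, ← h]
    norm_num
  constructor
  · refine le_antisymm e2 ?_
    rw [← e6]
    exact mul_le_of_le_one_right' e3
  · refine le_antisymm e3 ?_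
    rw [← e6]
    exact mul_le_of_le_one_left' e2

open scoped Classical in
/-- **at a prime of good reduction of a form the discriminant is a square and a cube up to units** -/
theorem good_disc {v : HeightOneSpectrum (𝓞 K)} (h6 : v.valuation K 6 = 1) {A B : K}
    (hD : 4 * A ^ 3 + 27 * B ^ 2 ≠ 0) {g : ℕ} (hg : 0 < g)
    {ρ : (AlgebraicClosure K ≃ₐ[K] AlgebraicClosure K) →* GL (Fin g) ℤ} (h : Good v A B ρ) :
    (∃ y : K, y ≠ 0 ∧ v.valuation K (4 * A ^ 3 + 27 * B ^ 2) = v.valuation K y ^ 2) ∧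
    ∃ y : K, y ≠ 0 ∧ v.valuation K (4 * A ^ 3 + 27 * B ^ 2) = v.valuation K y ^ 3 := by
  obtain ⟨O, hO⟩ := exists_above v
  obtain ⟨h2, h3⟩ := val23 h6
  have eD : 4 * (algebraMap K (AlgebraicClosure K) A) ^ 3 +
    27 * (algebraMap K (AlgebraicClosure K) B) ^ 2 =
      algebraMap K (AlgebraicClosure K) (4 * A ^ 3 + 27 * B ^ 2) := by
    simp only [map_mul, map_add, map_pow, map_ofNat]
  have hD' := (map_ne_zero (algebraMap K (AlgebraicClosure K))).2 hD
  constructor
  · obtain ⟨e₁, e₂, e₃, he, hs⟩ := cubic (algebraMap K (AlgebraicClosure K) A)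
      (algebraMap K (AlgebraicClosure K) B)
    have hz0 : (e₁ - e₂) * (e₂ - e₃) * (e₃ - e₁) ≠ 0 := by
      intro h0
      rw [h0, eD] at hs
      apply hD'
      linear_combination hs
    obtain ⟨y, hy, k1, k2⟩ := h 2 h2 O hO _ hz0 (by
      intro σ hσ
      obtain ⟨a, ha⟩ := scalar_gen (V := PA A B) (ga A B σ) hg
        (ρ σ : Matrix (Fin g) (Fin g) ℤ) (m := 2) hσ
      have key : ∀ e, e = e₁ ∨ e = e₂ ∨ e = e₃ → σ e = e := by
        intro e hee
        obtain ⟨y, hns, ht⟩ := x_two hD (he e hee)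
        exact fix_x (Or.inl (scalar_two_gen (ga A B σ) ha ht))
      rw [map_mul, map_mul, map_sub, map_sub, map_sub, key e₁ (Or.inl rfl),
        key e₂ (Or.inr (Or.inl rfl)), key e₃ (Or.inr (Or.inr rfl))])
    refine ⟨y, hy, ?_⟩
    have k3 := radical hO (neg_ne_zero.2 hD) hy (k := 2) (by rw [hs, eD, map_neg]) k1 k2
    rwa [Valuation.map_neg] at k3
  · obtain ⟨x₁, x₂, x₃, x₄, hx, ht⟩ := quartic (algebraMap K (AlgebraicClosure K) A)
      (algebraMap K (AlgebraicClosure K) B)
    have hc : (16 * (4 * A ^ 3 + 27 * B ^ 2) : K) ≠ 0 := mul_ne_zero (by norm_num) hD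
    have e16 : 16 * (4 * (algebraMap K (AlgebraicClosure K) A) ^ 3 +
      27 * (algebraMap K (AlgebraicClosure K) B) ^ 2) =
        algebraMap K (AlgebraicClosure K) (16 * (4 * A ^ 3 + 27 * B ^ 2)) := by
      simp only [map_mul, map_add, map_pow, map_ofNat]
    rw [e16] at ht
    have hz0 : 3 * (x₁ * x₂ + x₃ * x₄) - 2 * algebraMap K (AlgebraicClosure K) A ≠ 0 := by
      intro h0
      rw [h0] at ht
      apply (map_ne_zero (algebraMap K (AlgebraicClosure K))).2 hc
      rw [← ht]
      ring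
    obtain ⟨y, hy, k1, k2⟩ := h 3 h3 O hO _ hz0 (by
      intro σ hσ
      obtain ⟨a, ha⟩ := scalar_gen (V := PA A B) (ga A B σ) hg
        (ρ σ : Matrix (Fin g) (Fin g) ℤ) (m := 3) hσ
      have key : ∀ x, x = x₁ ∨ x = x₂ ∨ x = x₃ ∨ x = x₄ → σ x = x := by
        intro x hxx
        obtain ⟨y, hns, ht⟩ := x_three hD (hx x hxx)
        exact fix_x (scalar_three_gen (ga A B σ) ha ht)
      rw [map_sub, map_mul, map_add, map_mul, map_mul, map_mul, map_ofNat, map_ofNat,
        key x₁ (Or.inl rfl), key x₂ (Or.inr (Or.inl rfl)), key x₃ (Or.inr (Or.inr (Or.inl rfl))),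
        key x₄ (Or.inr (Or.inr (Or.inr rfl))), AlgEquiv.commutes])
    refine ⟨y, hy, ?_⟩
    have k3 := radical hO hc hy ht k1 k2
    have e2 : v.valuation K (16 : K) = 1 := by
      have : (16 : K) = ((2 : ℕ) : K) ^ 4 := by norm_num
      rw [this, map_pow, h2, one_pow]
    rwa [map_mul, e2, one_mul] at k3

end Pool.Agent.Q19.FM
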