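import Pool.Agent.Y673.FM.Fix
import Pool.Agent.Q19.FM.Form

/-!
# Elements of the inertia group in the absolute Galois group
-/

set_option autoImplicit false

namespace Pool.Agent.Q19.FM

open NumberField IsDedekindDomain Pool.Agent.Y673.Loc Pool.Agent.Y673.FM
open scoped Pointwise

variable {K : Type} [Field K] [NumberField K]

/-- `σ` is in the inertia group of the prime `P` of the ring of all algebraic integers:
`σ a ≡ a` modulo `P` for all `a` -/
def InI (P : Ideal (𝓞 (AlgebraicClosure K)))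
    (σ : AlgebraicClosure K ≃ₐ[K] AlgebraicClosure K) : Prop :=
  ∀ a : 𝓞 (AlgebraicClosure K), ∃ b ∈ P, σ (a : AlgebraicClosure K) - a = b

omit [NumberField K] in
theorem closed_eval (x : AlgebraicClosure K) (S : Set (AlgebraicClosure K)) :
    IsClosed {σ : AlgebraicClosure K ≃ₐ[K] AlgebraicClosure K | σ x ∈ S} := by
  rw [← isOpen_compl_iff, isOpen_iff_forall_mem_open]
  intro τ hτ
  have hfd : FiniteDimensional K (IntermediateField.adjoin K {x}) :=
    IntermediateField.adjoin.finiteDimensional (Algebra.IsIntegral.isIntegral x)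
  refine ⟨τ • ((IntermediateField.adjoin K {x}).fixingSubgroup :
    Set (AlgebraicClosure K ≃ₐ[K] AlgebraicClosure K)), ?_, ?_, ?_⟩
  · rintro _ ⟨h, hh, rfl⟩
    have h1 : h x = x := (IntermediateField.mem_fixingSubgroup_iff _ _).1 hh x
      (IntermediateField.mem_adjoin_simple_self K x)
    change (τ * h) x ∉ S
    rw [AlgEquiv.mul_apply, h1]
    exact hτ
  · exact (IntermediateField.fixingSubgroup_isOpen _).smul τ
  · exact ⟨1, one_mem _, mul_one τ⟩

theorem fin_level {v : HeightOneSpectrum (𝓞 K)} {P : Ideal (𝓞 (AlgebraicClosure K))}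
    (hP : P.IsPrime) (hPv : P.comap (algebraMap (𝓞 K) (𝓞 (AlgebraicClosure K))) = v.asIdeal)
    {s : AlgebraicClosure K} {c : K} (hc : c ≠ 0) {k : ℕ}
    (hs : s ^ k = algebraMap K (AlgebraicClosure K) c) (hv : ¬ (k : ℤ) ∣ (adv K v).v c)
    (u : Finset (𝓞 (AlgebraicClosure K))) :
    ∃ σ : AlgebraicClosure K ≃ₐ[K] AlgebraicClosure K, σ s ≠ s ∧
      ∀ a ∈ u, ∃ b ∈ P, σ (a : AlgebraicClosure K) - a = b := by
  classical
  obtain ⟨S, hS⟩ : ∃ S : Finset (AlgebraicClosure K),
      S = insert s (u.image fun a : 𝓞 (AlgebraicClosure K) => (a : AlgebraicClosure K)) :=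
    ⟨_, rfl⟩
  have hfd : FiniteDimensional K (IntermediateField.adjoin K (S : Set (AlgebraicClosure K))) :=
    IntermediateField.finiteDimensional_adjoin fun x _ => Algebra.IsIntegral.isIntegral x
  obtain ⟨M, hM⟩ : ∃ M : IntermediateField K (AlgebraicClosure K),
      M = IntermediateField.normalClosure K
        (IntermediateField.adjoin K (S : Set (AlgebraicClosure K))) (AlgebraicClosure K) :=
    ⟨_, rfl⟩
  have hle : IntermediateField.adjoin K (S : Set (AlgebraicClosure K)) ≤ M := by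
    rw [hM]
    exact IntermediateField.le_normalClosure _
  have i1 : FiniteDimensional K M := by
    rw [hM]
    infer_instance
  have i2 : Normal K M := by
    rw [hM]
    infer_instance
  have i3 : IsGalois K M := ⟨⟩
  have i4 : NumberField M := by
    have : FiniteDimensional ℚ M := Module.Finite.trans K M
    exact ⟨⟩
  have memS : ∀ x ∈ S, x ∈ M := fun x hx =>
    hle (IntermediateField.subset_adjoin K _ hx)
  have hsM : s ∈ M := memS s (by rw [hS]; exact Finset.mem_insert_self _ _)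
  obtain ⟨Q, hQ⟩ : ∃ Q : Ideal (𝓞 M), Q = P.comap (algebraMap (𝓞 M) (𝓞 (AlgebraicClosure K))) :=
    ⟨_, rfl⟩
  have hQp : Q.IsPrime := by
    rw [hQ]
    exact Ideal.comap_isPrime _ _
  have hQv : Q.comap (algebraMap (𝓞 K) (𝓞 M)) = v.asIdeal := by
    rw [hQ, Ideal.comap_comap, ← hPv]
    rfl
  have hQ0 : Q ≠ ⊥ := by
    rintro h0
    rw [h0] at hQv
    apply v.ne_bot
    rw [← hQv, eq_bot_iff]
    intro x hx
    rw [Ideal.mem_comap, Ideal.mem_bot] at hx
    rw [Ideal.mem_bot]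
    exact (FaithfulSMul.algebraMap_injective (𝓞 K) (𝓞 M)) (by rw [hx, map_zero])
  obtain ⟨w, hw⟩ : ∃ w : HeightOneSpectrum (𝓞 M), w = ⟨Q, hQp, hQ0⟩ := ⟨_, rfl⟩
  have hwQ : w.asIdeal = Q := by rw [hw]
  have hlo : w.asIdeal.LiesOver v.asIdeal := by
    rw [hwQ]
    exact ⟨hQv.symm⟩
  have hval : ∀ x : K, (adv M w).v (algebraMap K M x) =
      (Nat.card (w.asIdeal.inertia (M ≃ₐ[K] M)) : ℤ) * (adv K v).v x := by
    intro x
    have h1 : Nat.card (w.asIdeal.inertia (M ≃ₐ[K] M)) =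
        v.asIdeal.ramificationIdx' w.asIdeal := by
      have := fin_res K v
      rw [Ideal.ramificationIdx'_eq_ramificationIdx v.asIdeal w.asIdeal v.ne_bot,
        ← Ideal.ramificationIdxIn_eq_ramificationIdx v.asIdeal w.asIdeal (M ≃ₐ[K] M)]
      exact Ideal.card_inertia_eq_ramificationIdxIn v.asIdeal w.asIdeal
    rw [h1]
    show -WithZero.log (w.valuation M (algebraMap K M x)) = _ * (-WithZero.log (v.valuation K x))
    rw [← HeightOneSpectrum.valuation_liesOver M v w, WithZero.log_pow]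
    simp
  obtain ⟨σ₀, hσI, hσs⟩ : ∃ σ₀ ∈ w.asIdeal.inertia (M ≃ₐ[K] M), σ₀ ⟨s, hsM⟩ ≠ ⟨s, hsM⟩ := by
    by_contra hcon
    push Not at hcon
    have h1 := fix_dvd K M w (w.asIdeal.inertia (M ≃ₐ[K] M)) le_rfl _ hcon
    have h2 : (⟨s, hsM⟩ : M) ^ k = algebraMap K M c := Subtype.ext hs
    have h3 := hval c
    rw [← h2] at h3
    have h4 : (adv M w).v ((⟨s, hsM⟩ : M) ^ k) = k * (adv M w).v (⟨s, hsM⟩ : M) := by
      show -WithZero.log (w.valuation M ((⟨s, hsM⟩ : M) ^ k)) =
        k * (-WithZero.log (w.valuation M (⟨s, hsM⟩ : M)))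
      rw [map_pow, WithZero.log_pow]
      simp
    obtain ⟨t, ht⟩ := h1
    rw [h4, ht] at h3
    apply hv
    have h5 : (Nat.card (w.asIdeal.inertia (M ≃ₐ[K] M)) : ℤ) ≠ 0 := by
      have : 0 < Nat.card (w.asIdeal.inertia (M ≃ₐ[K] M)) := Nat.card_pos
      exact_mod_cast this.ne'
    exact ⟨t, mul_left_cancel₀ h5 (by rw [← h3]; ring)⟩
  have hl : ∀ x : M, σ₀.liftNormal (AlgebraicClosure K) (x : AlgebraicClosure K) =
      ((σ₀ x : M) : AlgebraicClosure K) := fun x =>
    AlgEquiv.liftNormal_commutes σ₀ (AlgebraicClosure K) x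
  refine ⟨σ₀.liftNormal (AlgebraicClosure K), ?_, ?_⟩
  · intro h
    apply hσs
    apply Subtype.ext
    rw [← hl]
    exact h
  · intro a ha
    have haM : (a : AlgebraicClosure K) ∈ M := memS _ (by
      rw [hS]
      exact Finset.mem_insert_of_mem (Finset.mem_image_of_mem
        (fun a : 𝓞 (AlgebraicClosure K) => (a : AlgebraicClosure K)) ha))
    obtain ⟨a', ha'⟩ : ∃ a' : 𝓞 M, ((a' : M) : AlgebraicClosure K) = a := by
      refine ⟨⟨⟨(a : AlgebraicClosure K), haM⟩, ?_⟩, rfl⟩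
      have h1 : IsIntegral ℤ (a : AlgebraicClosure K) := a.2
      exact (isIntegral_algHom_iff (M.val.restrictScalars ℤ) Subtype.val_injective).1 h1
    refine ⟨algebraMap (𝓞 M) (𝓞 (AlgebraicClosure K)) (σ₀ • a' - a'), ?_, ?_⟩
    · have h1 : σ₀ • a' - a' ∈ w.asIdeal := hσI a'
      rw [hwQ, hQ, Ideal.mem_comap] at h1
      exact h1
    · have e1 : ((algebraMap (𝓞 M) (𝓞 (AlgebraicClosure K)) (σ₀ • a' - a') :
          𝓞 (AlgebraicClosure K)) : AlgebraicClosure K) =
          (((σ₀ • a' - a' : 𝓞 M) : M) : AlgebraicClosure K) := rfl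
      have e2 : ((σ₀ • a' - a' : 𝓞 M) : M) = σ₀ (a' : M) - (a' : M) := by
        change algebraMap (𝓞 M) M (σ₀ • a' - a') = _
        rw [map_sub, smul_coe]
      rw [e1, e2, ← ha', hl]
      rfl

/-- **an element of the inertia group moves the `k`-th root of an element whose order at `v` is not
divisible by `k`** -/
theorem exists_inertia {v : HeightOneSpectrum (𝓞 K)} {P : Ideal (𝓞 (AlgebraicClosure K))}
    (hP : P.IsPrime) (hPv : P.comap (algebraMap (𝓞 K) (𝓞 (AlgebraicClosure K))) = v.asIdeal)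
    {s : AlgebraicClosure K} {c : K} (hc : c ≠ 0) {k : ℕ}
    (hs : s ^ k = algebraMap K (AlgebraicClosure K) c) (hv : ¬ (k : ℤ) ∣ (adv K v).v c) :
    ∃ σ : AlgebraicClosure K ≃ₐ[K] AlgebraicClosure K, InI P σ ∧ σ s ≠ s := by
  have hcpt : IsCompact {σ : AlgebraicClosure K ≃ₐ[K] AlgebraicClosure K | σ s ∈ ({s} : Set _)ᶜ} :=
    (closed_eval s _).isCompact
  obtain ⟨σ, h1, h2⟩ := hcpt.inter_iInter_nonempty
    (fun a : 𝓞 (AlgebraicClosure K) => {σ : AlgebraicClosure K ≃ₐ[K] AlgebraicClosure K |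
      σ (a : AlgebraicClosure K) ∈ {x | ∃ b ∈ P, x - a = (b : AlgebraicClosure K)}})
    (fun a => closed_eval _ _) (by
      intro u
      obtain ⟨σ, h1, h2⟩ := fin_level hP hPv hc hs hv u
      refine ⟨σ, h1, ?_⟩
      rw [Set.mem_iInter₂]
      intro a ha
      exact h2 a ha)
  refine ⟨σ, fun a => ?_, h1⟩
  rw [Set.mem_iInter] at h2
  exact h2 a

end Pool.Agent.Q19.FM
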