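import Pool.Agent.Y673.SL.Bs
import Pool.Agent.Q19.FM.Iner

/-!
# Points of order two or three of a form fixed by the inertia group
-/

set_option autoImplicit false

namespace Pool.Agent.Q19.FM

open NumberField IsDedekindDomain WeierstrassCurve Pool.Agent.Y673.Loc

/-- the points of order `p` fixed by an automorphism which does not act by a scalar -/
theorem card_le {V : Type*} [AddCommGroup V] (f : V →+ V) {p : ℕ} (hp : p.Prime) {P : V}
    (hP : p • P = 0) (hspan : ∀ R : V, p • R = 0 → ∃ m n : ℤ, R = m • P + n • f P)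
    (hind : ∀ m n : ℤ, m • P + n • f P = 0 → (p : ℤ) ∣ m ∧ (p : ℤ) ∣ n) {g : ℕ}
    (N : Matrix (Fin g) (Fin g) ℤ) (S : Set (Fin g → V))
    (hS : ∀ x ∈ S, p • x = 0 ∧ (fun i => ∑ k, N i k • f (x k)) = x) : S.ncard ≤ p ^ g := by
  classical
  have : Fact p.Prime := ⟨hp⟩
  have hzero : ∀ R : V, p • R = 0 → ∀ a : ℤ, (p : ℤ) ∣ a → a • R = 0 := by
    rintro R hR a ⟨b, rfl⟩
    rw [mul_comm, mul_smul, natCast_zsmul, hR, smul_zero]
  have hQ : p • f P = 0 := by rw [← map_nsmul, hP, map_zero]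
  choose! m n hmn using hspan
  have key : S.ncard ≤ (Set.univ : Set (Fin g → ZMod p)).ncard := by
    refine Set.ncard_le_ncard_of_injOn (fun x i => ((n (x i) : ℤ) : ZMod p))
      (fun _ _ => Set.mem_univ _) ?_ Set.finite_univ
    intro x hx x' hx' he
    obtain ⟨h1, h2⟩ := hS x hx
    obtain ⟨h1', h2'⟩ := hS x' hx'
    have hi : ∀ i, ∃ a : ℤ, x i - x' i = a • P := by
      intro i
      have k1 := hmn (x i) (congrFun h1 i)
      have k2 := hmn (x' i) (congrFun h1' i)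
      have k3 : ((n (x i) : ℤ) : ZMod p) = ((n (x' i) : ℤ) : ZMod p) := congrFun he i
      have k4 : (p : ℤ) ∣ n (x i) - n (x' i) := by
        rw [← ZMod.intCast_zmod_eq_zero_iff_dvd]
        push_cast
        rw [k3, sub_self]
      refine ⟨m (x i) - m (x' i), ?_⟩
      have k5 := hzero _ hQ _ k4
      calc x i - x' i = (m (x i) • P + n (x i) • f P) - (m (x' i) • P + n (x' i) • f P) := by
            rw [← k1, ← k2]
        _ = (m (x i) - m (x' i)) • P + (n (x i) - n (x' i)) • f P := by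
            rw [sub_smul, sub_smul]
            abel
        _ = _ := by rw [k5, add_zero]
    choose a ha using hi
    funext i
    have e1 : x i - x' i = ∑ k, N i k • f (x k - x' k) := by
      have l1 := congrFun h2 i
      have l2 := congrFun h2' i
      change ∑ k, N i k • f (x k) = x i at l1
      change ∑ k, N i k • f (x' k) = x' i at l2
      rw [← l1, ← l2, ← Finset.sum_sub_distrib]
      refine Finset.sum_congr rfl fun k _ => ?_
      rw [map_sub, smul_sub]
    have e2 : ∑ k, N i k • f (x k - x' k) = (∑ k, N i k * a k) • f P := by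
      rw [Finset.sum_smul]
      refine Finset.sum_congr rfl fun k _ => ?_
      rw [ha, map_zsmul, mul_smul]
    rw [e2, ha] at e1
    have e3 : a i • P + (-(∑ k, N i k * a k)) • f P = 0 := by
      rw [neg_smul, e1, add_neg_cancel]
    have e4 := hzero P hP _ (hind _ _ e3).1
    rw [← ha] at e4
    exact sub_eq_zero.1 e4
  rw [Set.ncard_univ, Nat.card_eq_fintype_card, Fintype.card_fun, ZMod.card, Fintype.card_fin]
    at key
  exact key

theorem multiple {V : Type*} [AddCommGroup V] {p : ℕ} (hp : p = 2 ∨ p = 3) {P Q : V}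
    (hP : p • P = 0) (h : Q ∈ AddSubgroup.zmultiples P) : Q = 0 ∨ Q = P ∨ Q = -P := by
  obtain ⟨k, hk⟩ := AddSubgroup.mem_zmultiples_iff.1 h
  have hz : ∀ a : ℤ, ((p : ℤ) * a) • P = 0 := fun a => by
    rw [mul_comm, mul_smul, natCast_zsmul, hP, smul_zero]
  rcases hp with rfl | rfl
  · rcases Int.even_or_odd' k with ⟨l, hl | hl⟩
    · left
      rw [← hk, hl]
      exact hz l
    · right; left
      rw [← hk, hl, add_smul, one_smul]
      have := hz l
      push_cast at this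
      rw [this, zero_add]
  · have e : k = k % 3 + 3 * (k / 3) := (Int.emod_add_mul_ediv k 3).symm
    have h3 := hz (k / 3)
    push_cast at h3
    have h5 : k % 3 = 0 ∨ k % 3 = 1 ∨ k % 3 = 2 := by omega
    rw [← hk, e, add_smul, h3, add_zero]
    rcases h5 with h5 | h5 | h5
    · left; rw [h5, zero_smul]
    · right; left; rw [h5, one_smul]
    · right; right
      rw [h5]
      have h6 : (3 : ℤ) • P = 0 := by
        have := hz 1
        push_cast at this
        exact this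
      have h7 : (3 : ℤ) • P = (2 : ℤ) • P + P := by
        rw [show (3 : ℤ) = 2 + 1 by norm_num, add_smul, one_smul]
      rw [h6] at h7
      exact eq_neg_of_add_eq_zero_left h7.symm

variable {K : Type} [Field K] [NumberField K]

open scoped Classical in
/-- the points `x` with `m x = 0` of the form of `E ^ g` given by `ρ` which are fixed by the inertia
group of `P` -/
def inv {A B : K} {g : ℕ} (ρ : (AlgebraicClosure K ≃ₐ[K] AlgebraicClosure K) →* GL (Fin g) ℤ)
    (m : ℕ) (P : Ideal (𝓞 (AlgebraicClosure K))) : Set (Fin g → PA A B) :=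
  {x | m • x = 0 ∧ ∀ σ : AlgebraicClosure K ≃ₐ[K] AlgebraicClosure K, InI P σ → tw ρ σ x = x}

open scoped Classical in
theorem basisPA {A B : K} (hD : 4 * A ^ 3 + 27 * B ^ 2 ≠ 0) {p : ℕ}
    (hp : p.Prime) {P Q : PA A B} (hP : p • P = 0) (hQ : p • Q = 0) (hP0 : P ≠ 0)
    (hPQ : Q ∉ AddSubgroup.zmultiples P) :
    (∀ R : PA A B, p • R = 0 → ∃ m n : ℤ, R = m • P + n • Q) ∧
      ∀ m n : ℤ, m • P + n • Q = 0 → (p : ℤ) ∣ m ∧ (p : ℤ) ∣ n :=
  Pool.Agent.Y673.SL.basis hD hp hP hQ hP0 hPQ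

open scoped Classical in
/-- an inertia element which does not act on `E[p]` by `±1` -/
theorem inv_le_of {A B : K} (hD : 4 * A ^ 3 + 27 * B ^ 2 ≠ 0) {g : ℕ}
    (ρ : (AlgebraicClosure K ≃ₐ[K] AlgebraicClosure K) →* GL (Fin g) ℤ) {p : ℕ}
    (hp : p = 2 ∨ p = 3) {P : Ideal (𝓞 (AlgebraicClosure K))}
    {σ : AlgebraicClosure K ≃ₐ[K] AlgebraicClosure K} (hσ : InI P σ) {R : PA A B}
    (hR : p • R = 0) (h1 : ga A B σ R ≠ R) (h2 : ga A B σ R ≠ -R) :
    (inv ρ p P : Set (Fin g → PA A B)).ncard ≤ p ^ g := by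
  have hpp : p.Prime := by rcases hp with rfl | rfl <;> norm_num
  have hinj : Function.Injective (ga A B σ) := Affine.Point.map_injective _
  have hR0 : R ≠ 0 := by
    rintro rfl
    exact h1 (map_zero _)
  have hQ : p • ga A B σ R = 0 := by rw [← map_nsmul, hR, map_zero]
  have hQ2 : ga A B σ R ∉ AddSubgroup.zmultiples R := by
    intro h
    rcases multiple hp hR h with h | h | h
    · exact hR0 (hinj (by rw [h, map_zero]))
    · exact h1 h
    · exact h2 h
  obtain ⟨k1, k2⟩ := basisPA hD hpp hR hQ hR0 hQ2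
  refine card_le (ga A B σ) hpp hR k1 k2 (ρ σ : Matrix (Fin g) (Fin g) ℤ) _ ?_
  intro x hx
  exact ⟨hx.1, hx.2 σ hσ⟩

open scoped Classical in
theorem inv_two {v : HeightOneSpectrum (𝓞 K)} {P : Ideal (𝓞 (AlgebraicClosure K))}
    (hP : P.IsPrime) (hPv : P.comap (algebraMap (𝓞 K) (𝓞 (AlgebraicClosure K))) = v.asIdeal)
    {A B : K} (hD : 4 * A ^ 3 + 27 * B ^ 2 ≠ 0) {g : ℕ}
    (ρ : (AlgebraicClosure K ≃ₐ[K] AlgebraicClosure K) →* GL (Fin g) ℤ)
    (hv : ¬ (2 : ℤ) ∣ (adv K v).v (4 * A ^ 3 + 27 * B ^ 2)) :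
    (inv ρ 2 P : Set (Fin g → PA A B)).ncard ≤ 2 ^ g := by
  have eD : 4 * (algebraMap K (AlgebraicClosure K) A) ^ 3 +
    27 * (algebraMap K (AlgebraicClosure K) B) ^ 2 =
      algebraMap K (AlgebraicClosure K) (4 * A ^ 3 + 27 * B ^ 2) := by
    simp only [map_mul, map_add, map_pow, map_ofNat]
  obtain ⟨e₁, e₂, e₃, he, hs⟩ := cubic (algebraMap K (AlgebraicClosure K) A)
      (algebraMap K (AlgebraicClosure K) B)
  obtain ⟨σ, hσ, hσs⟩ := exists_inertia hP hPv (neg_ne_zero.2 hD) (k := 2)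
    (by rw [hs, eD, map_neg]) (by
      have e : (adv K v).v (-(4 * A ^ 3 + 27 * B ^ 2)) = (adv K v).v (4 * A ^ 3 + 27 * B ^ 2) := by
        show -WithZero.log (v.valuation K (-(4 * A ^ 3 + 27 * B ^ 2))) =
          -WithZero.log (v.valuation K (4 * A ^ 3 + 27 * B ^ 2))
        rw [Valuation.map_neg]
      rw [e]
      exact_mod_cast hv)
  obtain ⟨R, hR, hR1⟩ : ∃ R : PA A B, (2 : ℕ) • R = 0 ∧ ga A B σ R ≠ R := by
    by_contra hcon
    push Not at hcon
    apply hσs
    have key : ∀ e, e = e₁ ∨ e = e₂ ∨ e = e₃ → σ e = e := by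
      intro e hee
      obtain ⟨y, hns, ht⟩ := x_two hD (he e hee)
      exact fix_x (Or.inl (hcon _ ht))
    rw [map_mul, map_mul, map_sub, map_sub, map_sub, key e₁ (Or.inl rfl),
      key e₂ (Or.inr (Or.inl rfl)), key e₃ (Or.inr (Or.inr rfl))]
  refine inv_le_of hD ρ (Or.inl rfl) hσ hR hR1 ?_
  have : -R = R := by
    rw [neg_eq_iff_add_eq_zero, ← two_nsmul]
    exact hR
  rw [this]
  exact hR1

open scoped Classical in
theorem inv_three {v : HeightOneSpectrum (𝓞 K)} (h6 : v.valuation K 6 = 1)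
    {P : Ideal (𝓞 (AlgebraicClosure K))}
    (hP : P.IsPrime) (hPv : P.comap (algebraMap (𝓞 K) (𝓞 (AlgebraicClosure K))) = v.asIdeal)
    {A B : K} (hD : 4 * A ^ 3 + 27 * B ^ 2 ≠ 0) {g : ℕ}
    (ρ : (AlgebraicClosure K ≃ₐ[K] AlgebraicClosure K) →* GL (Fin g) ℤ)
    (hv : ¬ (3 : ℤ) ∣ (adv K v).v (4 * A ^ 3 + 27 * B ^ 2)) :
    (inv ρ 3 P : Set (Fin g → PA A B)).ncard ≤ 3 ^ g := by
  obtain ⟨x₁, x₂, x₃, x₄, hx, ht⟩ := quartic (algebraMap K (AlgebraicClosure K) A)
      (algebraMap K (AlgebraicClosure K) B)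
  have hc : (16 * (4 * A ^ 3 + 27 * B ^ 2) : K) ≠ 0 := mul_ne_zero (by norm_num) hD
  have e16 : 16 * (4 * (algebraMap K (AlgebraicClosure K) A) ^ 3 +
      27 * (algebraMap K (AlgebraicClosure K) B) ^ 2) =
        algebraMap K (AlgebraicClosure K) (16 * (4 * A ^ 3 + 27 * B ^ 2)) := by
    simp only [map_mul, map_add, map_pow, map_ofNat]
  rw [e16] at ht
  obtain ⟨σ, hσ, hσs⟩ := exists_inertia hP hPv hc ht (by
      have e : (adv K v).v (16 * (4 * A ^ 3 + 27 * B ^ 2)) =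
          (adv K v).v (4 * A ^ 3 + 27 * B ^ 2) := by
        show -WithZero.log (v.valuation K (16 * (4 * A ^ 3 + 27 * B ^ 2))) =
          -WithZero.log (v.valuation K (4 * A ^ 3 + 27 * B ^ 2))
        have h2 := (val23 h6).1
        have e2 : v.valuation K (16 : K) = 1 := by
          have : (16 : K) = ((2 : ℕ) : K) ^ 4 := by norm_num
          rw [this, map_pow, h2, one_pow]
        rw [map_mul, e2, one_mul]
      rw [e]
      exact_mod_cast hv)
  obtain ⟨R, hR, hR1⟩ : ∃ R : PA A B, (3 : ℕ) • R = 0 ∧ ¬ (ga A B σ R = R ∨ ga A B σ R = -R) := by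
    by_contra hcon
    push Not at hcon
    apply hσs
    have key : ∀ x, x = x₁ ∨ x = x₂ ∨ x = x₃ ∨ x = x₄ → σ x = x := by
      intro x hxx
      obtain ⟨y, hns, ht⟩ := x_three hD (hx x hxx)
      exact fix_x (hcon _ ht)
    rw [map_sub, map_mul, map_add, map_mul, map_mul, map_mul, map_ofNat, map_ofNat,
        key x₁ (Or.inl rfl), key x₂ (Or.inr (Or.inl rfl)), key x₃ (Or.inr (Or.inr (Or.inl rfl))),
        key x₄ (Or.inr (Or.inr (Or.inr rfl))), AlgEquiv.commutes]
  rw [not_or] at hR1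
  exact inv_le_of hD ρ (Or.inr rfl) hσ hR hR1.1 hR1.2

open scoped Classical in
/-- at least `m ^ r` of the points of order `m` are fixed by inertia, for all `m` prime to `v`: the
inertia invariants of the Tate module have rank at least `r` -/
def RkGe (v : HeightOneSpectrum (𝓞 K)) (A B : K) {g : ℕ}
    (ρ : (AlgebraicClosure K ≃ₐ[K] AlgebraicClosure K) →* GL (Fin g) ℤ) (r : ℕ) : Prop :=
  ∀ m : ℕ, v.valuation K (m : K) = 1 → ∀ P : Ideal (𝓞 (AlgebraicClosure K)), P.IsPrime →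
    P.comap (algebraMap (𝓞 K) (𝓞 (AlgebraicClosure K))) = v.asIdeal →
    m ^ r ≤ (inv ρ m P : Set (Fin g → PA A B)).ncard

/-- the tame part of the conductor exponent -/
noncomputable def tExp (v : HeightOneSpectrum (𝓞 K)) (A B : K) {g : ℕ}
    (ρ : (AlgebraicClosure K ≃ₐ[K] AlgebraicClosure K) →* GL (Fin g) ℤ) : ℕ :=
  2 * g - sSup {r | RkGe v A B ρ r}

theorem exists_prime (v : HeightOneSpectrum (𝓞 K)) : ∃ P : Ideal (𝓞 (AlgebraicClosure K)),
    P.IsPrime ∧ P.comap (algebraMap (𝓞 K) (𝓞 (AlgebraicClosure K))) = v.asIdeal := by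
  obtain ⟨⟨P, hP, hPv⟩⟩ :=
    (inferInstance : Nonempty (Ideal.primesOver v.asIdeal (𝓞 (AlgebraicClosure K))))
  exact ⟨P, hP, hPv.over.symm⟩

/-- **the tame exponent is at least `g` if the discriminant is not a sixth power up to units** -/
theorem tExp_ge {v : HeightOneSpectrum (𝓞 K)} (h6 : v.valuation K 6 = 1) {A B : K}
    (hD : 4 * A ^ 3 + 27 * B ^ 2 ≠ 0) {g : ℕ}
    (ρ : (AlgebraicClosure K ≃ₐ[K] AlgebraicClosure K) →* GL (Fin g) ℤ)
    (hv : ¬ (2 : ℤ) ∣ (adv K v).v (4 * A ^ 3 + 27 * B ^ 2) ∨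
      ¬ (3 : ℤ) ∣ (adv K v).v (4 * A ^ 3 + 27 * B ^ 2)) : g ≤ tExp v A B ρ := by
  obtain ⟨P, hP, hPv⟩ := exists_prime v
  obtain ⟨h2, h3⟩ := val23 h6
  have key : ∀ r, RkGe v A B ρ r → r ≤ g := by
    intro r hr
    rcases hv with hv | hv
    · have k1 := (hr 2 h2 P hP hPv).trans (inv_two hP hPv hD ρ hv)
      exact (Nat.pow_le_pow_iff_right (by norm_num)).1 k1
    · have k1 := (hr 3 h3 P hP hPv).trans (inv_three h6 hP hPv hD ρ hv)
      exact (Nat.pow_le_pow_iff_right (by norm_num)).1 k1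
  have h : sSup {r | RkGe v A B ρ r} ≤ g := by
    rcases Set.eq_empty_or_nonempty {r | RkGe v A B ρ r} with h | h
    · rw [h]
      simp
    · exact csSup_le h key
  unfold tExp
  omega

end Pool.Agent.Q19.FM
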