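import Pool.Agent.Q19.JL.Fin2
import Pool.Agent.Q19.FM.Rank

/-!
# The conductors of all forms of powers of elliptic curves and Frey's inequality, all heights
-/

set_option autoImplicit false

namespace Pool.Agent.Q19.FM

open NumberField IsDedekindDomain Finset Pool.Agent.H691R3 Pool.Agent.Q19.JL
open Pool.Agent.TH876.Loc (Pr Pt M df L one_le_M sp mem_sp hgt nn nn_pos nn_mono one_le_nn nn_union
  mx lg lg_one logHeight_le df_nonneg hgt_nonneg)
open Pool.Agent.TH876.FH (IsPeriod faltings)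
open Pool.Agent.Y733.FF (val_exp fv_exp)
open Pool.Agent.Y673.Loc (adv)

variable {K : Type} [Field K] [NumberField K]

theorem log_fv (v : Pr K) {x : K} (hx : x ≠ 0) :
    Real.log (fv v x) = ((-(adv K v).v x : ℤ) : ℝ) * Real.log (Nv v) := by
  have key : ∀ y : K, y ≠ 0 → v.valuation K y ≤ 1 →
      Real.log (fv v y) = ((-(adv K v).v y : ℤ) : ℝ) * Real.log (Nv v) := by
    intro y hy h1
    obtain ⟨m, hm⟩ := val_exp v hy h1
    have e : (adv K v).v y = m := by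
      show -WithZero.log (v.valuation K y) = m
      rw [hm, WithZero.log_exp]
      ring
    rw [fv_exp v hm, e]
    push_cast
    ring
  rcases le_total (v.valuation K x) 1 with h | h
  · exact key x hx h
  · have h1 := key x⁻¹ (inv_ne_zero hx) (by
      rw [map_inv₀]
      exact inv_le_one_of_one_le₀ h)
    have e : (adv K v).v x⁻¹ = -(adv K v).v x := by
      show -WithZero.log (v.valuation K x⁻¹) = - -WithZero.log (v.valuation K x)
      rw [map_inv₀, WithZero.log_inv]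
    rw [map_inv₀, Real.log_inv, e] at h1
    push_cast at h1 ⊢
    linarith

/-- the invariant -/
noncomputable def jn {K : Type} [Field K] (A B : K) : K :=
  6912 * A ^ 3 / (4 * A ^ 3 + 27 * B ^ 2)

theorem jn_sub {A B : K} (hD : 4 * A ^ 3 + 27 * B ^ 2 ≠ 0) :
    jn A B - 1728 = -(46656 * B ^ 2) / (4 * A ^ 3 + 27 * B ^ 2) := by
  unfold jn
  rw [eq_div_iff hD, sub_mul, div_mul_cancel₀ _ hD]
  ring

/-- the orders of the invariant in terms of the order of the discriminant -/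
theorem ord_disc {v : Pr K} (h : v ∉ T6 K) {A B : K} (hD : 4 * A ^ 3 + 27 * B ^ 2 ≠ 0)
    (h0 : jn A B ≠ 0) (h1 : jn A B ≠ 1728) : ∃ a b : ℤ,
    Real.log (fv v (jn A B)) =
      ((3 * a + (adv K v).v (4 * A ^ 3 + 27 * B ^ 2) : ℤ) : ℝ) * Real.log (Nv v) ∧
    Real.log (fv v (jn A B - 1728)) =
      ((2 * b + (adv K v).v (4 * A ^ 3 + 27 * B ^ 2) : ℤ) : ℝ) * Real.log (Nv v) := by
  obtain ⟨h2, h3⟩ := fv23 h
  have hA : A ≠ 0 := by
    rintro rfl
    apply h0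
    unfold jn
    simp
  have hB : B ≠ 0 := by
    rintro rfl
    apply h1
    have := jn_sub (B := (0 : K)) hD
    rw [← sub_eq_zero, this]
    simp
  obtain ⟨a, ha⟩ := log_fv_int v hA
  obtain ⟨b, hb⟩ := log_fv_int v hB
  have p : ∀ x : K, x ≠ 0 → 0 < fv v x := fun x hx => (fv v).pos hx
  refine ⟨a, b, ?_, ?_⟩
  · unfold jn
    have e : (6912 : K) = 2 ^ 8 * 3 ^ 3 := by norm_num
    rw [map_div₀, map_mul, e, map_mul, map_pow, map_pow, map_pow, h2, h3, one_pow, one_pow,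
      one_mul, one_mul, Real.log_div (pow_pos (p _ hA) 3).ne' (p _ hD).ne', Real.log_pow, ha,
      log_fv v hD]
    push_cast
    ring
  · rw [jn_sub hD]
    have e : (46656 : K) = 2 ^ 6 * 3 ^ 6 := by norm_num
    rw [map_div₀, (fv v).map_neg, map_mul, e, map_mul, map_pow, map_pow, map_pow, h2, h3, one_pow,
      one_mul, one_mul, Real.log_div (pow_pos (p _ hB) 2).ne' (p _ hD).ne', Real.log_pow,
      hb, log_fv v hD]
    push_cast
    ring

/-- the contribution of a prime to the conductor -/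
theorem exp_loc {v : Pr K} (h : v ∉ T6 K) {A B : K} (hD : 4 * A ^ 3 + 27 * B ^ 2 ≠ 0)
    (h0 : jn A B ≠ 0) (h1 : jn A B ≠ 1728) {g : ℕ}
    (ρ : (AlgebraicClosure K ≃ₐ[K] AlgebraicClosure K) →* GL (Fin g) ℤ) :
    (g : ℝ) * ((2 * ll v 0 (zz (jn A B)) - df (Sum.inr v : Pl K) 0 (zz (jn A B))) +
      (2 * ll v 1 (zz (jn A B)) - df (Sum.inr v : Pl K) 1 (zz (jn A B))) +
      (2 * ll v 2 (zz (jn A B)) - df (Sum.inr v : Pl K) 2 (zz (jn A B)))) ≤
      (tExp v A B ρ : ℝ) * Real.log (Nv v) := by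
  have hl := log_Nv_pos v
  have hg : (0 : ℝ) ≤ g := Nat.cast_nonneg g
  have ht : (0 : ℝ) ≤ (tExp v A B ρ : ℝ) * Real.log (Nv v) :=
    mul_nonneg (Nat.cast_nonneg _) hl.le
  obtain ⟨a, b, ka, kb⟩ := ord_disc h hD h0 h1
  have main : ∀ m : ℕ, 1 ≤ m →
      (m = 1 → (¬ (2 : ℤ) ∣ (adv K v).v (4 * A ^ 3 + 27 * B ^ 2) ∨
        ¬ (3 : ℤ) ∣ (adv K v).v (4 * A ^ 3 + 27 * B ^ 2))) →
      (g : ℝ) * (2 * Real.log (Nv v) - m * Real.log (Nv v)) ≤
        (tExp v A B ρ : ℝ) * Real.log (Nv v) := by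
    intro m hm hd
    rcases Nat.eq_or_lt_of_le hm with h1 | h1
    · have h2 := tExp_ge (v6 h) hD ρ (hd h1.symm)
      have h3 : (g : ℝ) ≤ tExp v A B ρ := by exact_mod_cast h2
      rw [← h1]
      have e : (g : ℝ) * (2 * Real.log (Nv v) - (1 : ℕ) * Real.log (Nv v)) =
          g * Real.log (Nv v) := by push_cast; ring
      rw [e]
      exact mul_le_mul_of_nonneg_right h3 hl.le
    · have h2 : (2 : ℝ) ≤ m := by exact_mod_cast h1
      refine le_trans ?_ ht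
      have h3 : 2 * Real.log (Nv v) - m * Real.log (Nv v) ≤ 0 := by nlinarith
      exact mul_nonpos_of_nonneg_of_nonpos hg h3
  rcases cases4 h h0 h1 with ⟨m, hm, a1, a2, a3, a4, a5⟩ | ⟨m, hm, a1, a2, a3, a4, a5⟩ |
    ⟨m, hm, a1, a2, a3, a4, a5⟩ | ⟨a1, a2, a3, a4, a5⟩
  · rw [ll_zero a3, ll_pos hm a4, ll_zero a5, a3, a4, a5]
    have k := main m hm (by
      rintro rfl
      right
      rw [a1] at ka
      have k2 := int_of_log v (a := ((1 : ℕ) : ℤ)) (by exact_mod_cast ka)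
      omega)
    refine le_trans (le_of_eq ?_) k
    ring
  · rw [ll_pos hm a3, ll_zero a4, ll_zero a5, a3, a4, a5]
    have k := main m hm (by
      rintro rfl
      right
      rw [a1] at ka
      have k2 := int_of_log v (a := -((1 : ℕ) : ℤ)) (b := 3 * a + (adv K v).v (4 * A ^ 3 + 27 * B ^ 2)) (by
        rw [← ka]; push_cast; ring)
      omega)
    refine le_trans (le_of_eq ?_) k
    ring
  · rw [ll_zero a3, ll_zero a4, ll_pos hm a5, a3, a4, a5]
    have k := main m hm (by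
      rintro rfl
      left
      rw [a2] at kb
      have k2 := int_of_log v (a := -((1 : ℕ) : ℤ)) (b := 2 * b + (adv K v).v (4 * A ^ 3 + 27 * B ^ 2)) (by
        rw [← kb]; push_cast; ring)
      omega)
    refine le_trans (le_of_eq ?_) k
    ring
  · rw [ll_zero a3, ll_zero a4, ll_zero a5, a3, a4, a5]
    refine le_trans (le_of_eq ?_) ht
    ring

open Classical in
/-- **the conductor of all forms** -/
theorem cond_ge {A B : K} (hD : 4 * A ^ 3 + 27 * B ^ 2 ≠ 0)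
    (h0 : jn A B ≠ 0) (h1 : jn A B ≠ 1728) {g : ℕ}
    (ρ : (AlgebraicClosure K ≃ₐ[K] AlgebraicClosure K) →* GL (Fin g) ℤ) (T : Finset (Pr K))
    (hT : ∀ v : Pr K, v.valuation K 6 = 1 → tExp v A B ρ ≠ 0 → v ∈ T) :
    (g : ℝ) * (2 * RR (zz (jn A B)) - 3 * hgt (zz (jn A B))) ≤
      ∑ v ∈ T, (tExp v A B ρ : ℝ) * Real.log (Nv v) := by
  have hx := pt_zz h0 h1
  have h2 : ∑ v ∈ sp (zz (jn A B)) \ T6 K, (tExp v A B ρ : ℝ) * Real.log (Nv v) ≤
      ∑ v ∈ T, (tExp v A B ρ : ℝ) * Real.log (Nv v) := by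
    have h3 : ∑ v ∈ T, (tExp v A B ρ : ℝ) * Real.log (Nv v) =
        ∑ v ∈ T ∪ (sp (zz (jn A B)) \ T6 K), (tExp v A B ρ : ℝ) * Real.log (Nv v) := by
      refine Finset.sum_subset Finset.subset_union_left fun v hv hvT => ?_
      have h4 : v ∉ T6 K := by
        rcases Finset.mem_union.1 hv with h | h
        · exact absurd h hvT
        · exact (Finset.mem_sdiff.1 h).2
      have h5 : tExp v A B ρ = 0 := by
        by_contra hc
        exact hvT (hT v (v6 h4) hc)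
      rw [h5]
      simp
    rw [h3]
    exact Finset.sum_le_sum_of_subset_of_nonneg Finset.subset_union_right fun v _ _ =>
      mul_nonneg (Nat.cast_nonneg _) (log_Nv_pos v).le
  refine le_trans ?_ h2
  have h3 : (g : ℝ) * ((2 * Pool.Agent.Q19.JL.AA 0 (zz (jn A B)) - Pool.Agent.Q19.JL.DD 0 (zz (jn A B))) +
      (2 * Pool.Agent.Q19.JL.AA 1 (zz (jn A B)) - Pool.Agent.Q19.JL.DD 1 (zz (jn A B))) +
      (2 * Pool.Agent.Q19.JL.AA 2 (zz (jn A B)) - Pool.Agent.Q19.JL.DD 2 (zz (jn A B)))) ≤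
      ∑ v ∈ sp (zz (jn A B)) \ T6 K, (tExp v A B ρ : ℝ) * Real.log (Nv v) := by
    unfold Pool.Agent.Q19.JL.AA Pool.Agent.Q19.JL.DD
    rw [Finset.mul_sum, Finset.mul_sum, Finset.mul_sum, ← Finset.sum_sub_distrib,
      ← Finset.sum_sub_distrib, ← Finset.sum_sub_distrib, ← Finset.sum_add_distrib,
      ← Finset.sum_add_distrib, Finset.mul_sum]
    refine Finset.sum_le_sum fun v hv => ?_
    exact exp_loc (Finset.mem_sdiff.1 hv).2 hD h0 h1 ρ
  refine le_trans ?_ h3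
  have k1 := sum_AA h0 h1
  have k2 := DD_le hx 0
  have k3 := DD_le hx 1
  have k4 := DD_le hx 2
  refine mul_le_mul_of_nonneg_left ?_ (Nat.cast_nonneg g)
  linarith

/-- **Frey's inequality for all forms of powers of elliptic curves, almost all invariants of all
heights** -/
theorem forms_up (K : Type) [Field K] [NumberField K] (κ c : ℝ) (hκ : 1 / 36 < κ) :
    ∃ ν X₀ : ℝ, 0 < ν ∧ 1 ≤ X₀ ∧ ∀ X : ℝ, X₀ ≤ X → ∀ S : Set K, S ⊆ Iv K X →
      (∀ j ∈ S, ∃ (A B : K) (g : ℕ)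
        (ρ : (AlgebraicClosure K ≃ₐ[K] AlgebraicClosure K) →* GL (Fin g) ℤ) (T : Finset (Pr K))
        (τ : InfinitePlace K → UpperHalfPlane), 4 * A ^ 3 + 27 * B ^ 2 ≠ 0 ∧ jn A B = j ∧
        0 < g ∧ (∀ v : Pr K, v.valuation K 6 = 1 → tExp v A B ρ ≠ 0 → v ∈ T) ∧ IsPeriod j τ ∧
        κ * ∑ v ∈ T, (tExp v A B ρ : ℝ) * Real.log (Nv v) + c * g ≤
          Module.finrank ℚ K * g * faltings j τ) →
      ((S.ncard : ℕ) : ℝ) ≤ X ^ (-ν) * (Iv K X).ncard := by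
  obtain ⟨c1, hc1, hf⟩ := Pool.Agent.Y729.FW.fal_two
  obtain ⟨n, hn⟩ : ∃ n : ℝ, n = Module.finrank ℚ K := ⟨_, rfl⟩
  obtain ⟨B, hB⟩ : ∃ B, B = Height.logHeight₁ (1728 : K) + c1 * n := ⟨_, rfl⟩
  have hp : 0 < 1 / 12 + 3 * κ := by linarith
  have hM : 1 / 3 < 2 * κ / (1 / 12 + 3 * κ) := by
    rw [div_lt_div_iff₀ (by norm_num) hp]
    linarith
  obtain ⟨ν, X₀, hν, hX₀, h⟩ := exc_prop K ((B / 12 - c + 1) / (1 / 12 + 3 * κ)) hM
  refine ⟨ν, X₀, hν, hX₀, fun X hX S hS hS2 => h X hX S hS fun j hj hcon => ?_⟩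
  obtain ⟨a, b, g, ρ, T, τ, hD, hjE, hg, hT, hτ, hv⟩ := hS2 j hj
  obtain ⟨g0, g1, -⟩ := hS hj
  have k1 := hf K j τ hτ
  have k2 := ht_one j g0 g1
  have k3 := cond_ge hD (by rw [hjE]; exact g0) (by rw [hjE]; exact g1) ρ T hT
  rw [hjE] at k3
  rw [← hn] at k1 hv
  have k4 : hgt (zz j) * (1 / 12 + 3 * κ) ≤ 2 * κ * RR (zz j) - (B / 12 - c + 1) := by
    have k5 := mul_le_mul_of_nonneg_right hcon hp.le
    have e1 : (2 * κ / (1 / 12 + 3 * κ) * RR (zz j) - (B / 12 - c + 1) / (1 / 12 + 3 * κ)) *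
        (1 / 12 + 3 * κ) = 2 * κ * RR (zz j) - (B / 12 - c + 1) := by
      field_simp
    rwa [e1] at k5
  have hg' : (0 : ℝ) < g := by exact_mod_cast hg
  have k6 : κ * ((g : ℝ) * (2 * RR (zz j) - 3 * hgt (zz j))) ≤
      κ * ∑ v ∈ T, (tExp v a b ρ : ℝ) * Real.log (Nv v) :=
    mul_le_mul_of_nonneg_left k3 (by linarith)
  have k7 : (g : ℝ) * (κ * (2 * RR (zz j) - 3 * hgt (zz j)) + c) ≤ g * (n * faltings j τ) := by
    nlinarith
  have k8 := le_of_mul_le_mul_left k7 hg'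
  linarith

end Pool.Agent.Q19.FM
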