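import Pool.Agent.Q19.FM.Sand

/-!
# Abelian schemes: good reduction of forms of powers and the height of the invariant
-/

set_option autoImplicit false

namespace Pool.Agent.Q19.FM

open NumberField IsDedekindDomain Finset Pool.Agent.H691R3 Pool.Agent.Q19.JL WeierstrassCurve
open Pool.Agent.TH876.Loc (Pr Pt M df L one_le_M sp mem_sp hgt nn nn_pos nn_mono one_le_nn nn_union
  mx lg lg_one logHeight_le df_nonneg hgt_nonneg)
open Pool.Agent.TH876.FH (IsPeriod faltings)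
open Pool.Agent.Y673.Loc (adv)

variable {K : Type} [Field K] [NumberField K]

open scoped Classical in
/-- the inertia groups above `v` act trivially on the points of order prime to `v` -/
def GoodI (v : HeightOneSpectrum (𝓞 K)) (A B : K) {g : ℕ}
    (ρ : (AlgebraicClosure K ≃ₐ[K] AlgebraicClosure K) →* GL (Fin g) ℤ) : Prop :=
  ∀ m : ℕ, v.valuation K (m : K) = 1 → ∀ P : Ideal (𝓞 (AlgebraicClosure K)), P.IsPrime →
    P.comap (algebraMap (𝓞 K) (𝓞 (AlgebraicClosure K))) = v.asIdeal →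
    ∀ σ : AlgebraicClosure K ≃ₐ[K] AlgebraicClosure K, InI P σ →
      ∀ x : Fin g → PA A B, m • x = 0 → tw ρ σ x = x

open scoped Classical in
theorem good_two {v : HeightOneSpectrum (𝓞 K)} (h6 : v.valuation K 6 = 1)
    {A B : K} (hD : 4 * A ^ 3 + 27 * B ^ 2 ≠ 0) {g : ℕ} (hg : 0 < g)
    {ρ : (AlgebraicClosure K ≃ₐ[K] AlgebraicClosure K) →* GL (Fin g) ℤ} (h : GoodI v A B ρ) :
    (2 : ℤ) ∣ (adv K v).v (4 * A ^ 3 + 27 * B ^ 2) := by
  by_contra hv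
  obtain ⟨P, hP, hPv⟩ := exists_prime v
  have eD : 4 * (algebraMap K (AlgebraicClosure K) A) ^ 3 +
    27 * (algebraMap K (AlgebraicClosure K) B) ^ 2 =
      algebraMap K (AlgebraicClosure K) (4 * A ^ 3 + 27 * B ^ 2) := by
    simp only [map_mul, map_add, map_pow, map_ofNat]
  obtain ⟨e₁, e₂, e₃, he, hs⟩ := cubic (algebraMap K (AlgebraicClosure K) A)
      (algebraMap K (AlgebraicClosure K) B)
  obtain ⟨σ, hσ, hσs⟩ := exists_inertia hP hPv (neg_ne_zero.2 hD) (k := 2)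
    (by rw [hs, eD, map_neg]) (by
      have e : (adv K v).v (-(4 * A ^ 3 + 27 * B ^ 2)) = (adv K v).v (4 * A ^ 3 + 27 * B ^ 2) := by
        show -WithZero.log (v.valuation K (-(4 * A ^ 3 + 27 * B ^ 2))) =
          -WithZero.log (v.valuation K (4 * A ^ 3 + 27 * B ^ 2))
        rw [Valuation.map_neg]
      rw [e]
      exact_mod_cast hv)
  apply hσs
  obtain ⟨a, ha⟩ := scalar_gen (V := PA A B) (ga A B σ) hg
    (ρ σ : Matrix (Fin g) (Fin g) ℤ) (m := 2) (fun x hx => h 2 (val23 h6).1 P hP hPv σ hσ x hx)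
  have key : ∀ e, e = e₁ ∨ e = e₂ ∨ e = e₃ → σ e = e := by
    intro e hee
    obtain ⟨y, hns, ht⟩ := x_two hD (he e hee)
    exact fix_x (Or.inl (scalar_two_gen (ga A B σ) ha ht))
  rw [map_mul, map_mul, map_sub, map_sub, map_sub, key e₁ (Or.inl rfl),
    key e₂ (Or.inr (Or.inl rfl)), key e₃ (Or.inr (Or.inr rfl))]

open scoped Classical in
theorem good_three {v : HeightOneSpectrum (𝓞 K)} (h6 : v.valuation K 6 = 1)
    {A B : K} (hD : 4 * A ^ 3 + 27 * B ^ 2 ≠ 0) {g : ℕ} (hg : 0 < g)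
    {ρ : (AlgebraicClosure K ≃ₐ[K] AlgebraicClosure K) →* GL (Fin g) ℤ} (h : GoodI v A B ρ) :
    (3 : ℤ) ∣ (adv K v).v (4 * A ^ 3 + 27 * B ^ 2) := by
  by_contra hv
  obtain ⟨P, hP, hPv⟩ := exists_prime v
  obtain ⟨x₁, x₂, x₃, x₄, hx, ht⟩ := quartic (algebraMap K (AlgebraicClosure K) A)
      (algebraMap K (AlgebraicClosure K) B)
  have hc : (16 * (4 * A ^ 3 + 27 * B ^ 2) : K) ≠ 0 := mul_ne_zero (by norm_num) hD
  have e16 : 16 * (4 * (algebraMap K (AlgebraicClosure K) A) ^ 3 +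
      27 * (algebraMap K (AlgebraicClosure K) B) ^ 2) =
        algebraMap K (AlgebraicClosure K) (16 * (4 * A ^ 3 + 27 * B ^ 2)) := by
    simp only [map_mul, map_add, map_pow, map_ofNat]
  rw [e16] at ht
  obtain ⟨σ, hσ, hσs⟩ := exists_inertia hP hPv hc ht (by
      have e : (adv K v).v (16 * (4 * A ^ 3 + 27 * B ^ 2)) =
          (adv K v).v (4 * A ^ 3 + 27 * B ^ 2) := by
        show -WithZero.log (v.valuation K (16 * (4 * A ^ 3 + 27 * B ^ 2))) =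
          -WithZero.log (v.valuation K (4 * A ^ 3 + 27 * B ^ 2))
        have h2 := (val23 h6).1
        have e2 : v.valuation K (16 : K) = 1 := by
          have : (16 : K) = ((2 : ℕ) : K) ^ 4 := by norm_num
          rw [this, map_pow, h2, one_pow]
        rw [map_mul, e2, one_mul]
      rw [e]
      exact_mod_cast hv)
  apply hσs
  obtain ⟨a, ha⟩ := scalar_gen (V := PA A B) (ga A B σ) hg
    (ρ σ : Matrix (Fin g) (Fin g) ℤ) (m := 3) (fun x hx => h 3 (val23 h6).2 P hP hPv σ hσ x hx)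
  have key : ∀ x, x = x₁ ∨ x = x₂ ∨ x = x₃ ∨ x = x₄ → σ x = x := by
    intro x hxx
    obtain ⟨y, hns, ht⟩ := x_three hD (hx x hxx)
    exact fix_x (scalar_three_gen (ga A B σ) ha ht)
  rw [map_sub, map_mul, map_add, map_mul, map_mul, map_mul, map_ofNat, map_ofNat,
      key x₁ (Or.inl rfl), key x₂ (Or.inr (Or.inl rfl)), key x₃ (Or.inr (Or.inr (Or.inl rfl))),
      key x₄ (Or.inr (Or.inr (Or.inr rfl))), AlgEquiv.commutes]

/-- a prime of good reduction of some form contributes nothing -/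
theorem good_loc {v : Pr K} (h : v ∉ T6 K) {A B : K} (hD : 4 * A ^ 3 + 27 * B ^ 2 ≠ 0)
    (h0 : jn A B ≠ 0) (h1 : jn A B ≠ 1728)
    (hv : (2 : ℤ) ∣ (adv K v).v (4 * A ^ 3 + 27 * B ^ 2) ∧
      (3 : ℤ) ∣ (adv K v).v (4 * A ^ 3 + 27 * B ^ 2)) :
    (2 * ll v 0 (zz (jn A B)) - df (Sum.inr v : Pl K) 0 (zz (jn A B))) +
      (2 * ll v 1 (zz (jn A B)) - df (Sum.inr v : Pl K) 1 (zz (jn A B))) +
      (2 * ll v 2 (zz (jn A B)) - df (Sum.inr v : Pl K) 2 (zz (jn A B))) ≤ 0 := by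
  have hl := log_Nv_pos v
  obtain ⟨a, b, ka, kb⟩ := ord_disc h hD h0 h1
  have main : ∀ m : ℕ, 1 ≤ m → m ≠ 1 → 2 * Real.log (Nv v) - m * Real.log (Nv v) ≤ 0 := by
    intro m hm hm1
    have h2 : (2 : ℝ) ≤ m := by exact_mod_cast (by omega : 2 ≤ m)
    nlinarith
  rcases cases4 h h0 h1 with ⟨m, hm, a1, a2, a3, a4, a5⟩ | ⟨m, hm, a1, a2, a3, a4, a5⟩ |
    ⟨m, hm, a1, a2, a3, a4, a5⟩ | ⟨a1, a2, a3, a4, a5⟩
  · rw [ll_zero a3, ll_pos hm a4, ll_zero a5, a3, a4, a5]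
    have k := main m hm (by
      rintro rfl
      rw [a1] at ka
      have k2 := int_of_log v (a := ((1 : ℕ) : ℤ)) (by exact_mod_cast ka)
      omega)
    linarith
  · rw [ll_pos hm a3, ll_zero a4, ll_zero a5, a3, a4, a5]
    have k := main m hm (by
      rintro rfl
      rw [a1] at ka
      have k2 := int_of_log v (a := -((1 : ℕ) : ℤ)) (b := 3 * a + (adv K v).v (4 * A ^ 3 + 27 * B ^ 2)) (by
        rw [← ka]; push_cast; ring)
      omega)
    linarith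
  · rw [ll_zero a3, ll_zero a4, ll_pos hm a5, a3, a4, a5]
    have k := main m hm (by
      rintro rfl
      rw [a2] at kb
      have k2 := int_of_log v (a := -((1 : ℕ) : ℤ)) (b := 2 * b + (adv K v).v (4 * A ^ 3 + 27 * B ^ 2)) (by
        rw [← kb]; push_cast; ring)
      omega)
    linarith
  · rw [ll_zero a3, ll_zero a4, ll_zero a5, a3, a4, a5]
    linarith

/-- any prime -/
theorem any_loc {v : Pr K} (h : v ∉ T6 K) {A B : K}
    (h0 : jn A B ≠ 0) (h1 : jn A B ≠ 1728) :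
    (2 * ll v 0 (zz (jn A B)) - df (Sum.inr v : Pl K) 0 (zz (jn A B))) +
      (2 * ll v 1 (zz (jn A B)) - df (Sum.inr v : Pl K) 1 (zz (jn A B))) +
      (2 * ll v 2 (zz (jn A B)) - df (Sum.inr v : Pl K) 2 (zz (jn A B))) ≤ Real.log (Nv v) := by
  have hl := log_Nv_pos v
  have main : ∀ m : ℕ, 1 ≤ m → 2 * Real.log (Nv v) - m * Real.log (Nv v) ≤ Real.log (Nv v) := by
    intro m hm
    have h2 : (1 : ℝ) ≤ m := by exact_mod_cast hm
    nlinarith
  rcases cases4 h h0 h1 with ⟨m, hm, a1, a2, a3, a4, a5⟩ | ⟨m, hm, a1, a2, a3, a4, a5⟩ |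
    ⟨m, hm, a1, a2, a3, a4, a5⟩ | ⟨a1, a2, a3, a4, a5⟩
  · rw [ll_zero a3, ll_pos hm a4, ll_zero a5, a3, a4, a5]
    linarith [main m hm]
  · rw [ll_pos hm a3, ll_zero a4, ll_zero a5, a3, a4, a5]
    linarith [main m hm]
  · rw [ll_zero a3, ll_zero a4, ll_pos hm a5, a3, a4, a5]
    linarith [main m hm]
  · rw [ll_zero a3, ll_zero a4, ll_zero a5, a3, a4, a5]
    linarith

open Classical in
/-- **the primes of bad reduction of a form** -/
theorem rad_ge {A B : K} (hD : 4 * A ^ 3 + 27 * B ^ 2 ≠ 0)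
    (h0 : jn A B ≠ 0) (h1 : jn A B ≠ 1728) {g : ℕ} (hg : 0 < g)
    (ρ : (AlgebraicClosure K ≃ₐ[K] AlgebraicClosure K) →* GL (Fin g) ℤ) (T : Finset (Pr K))
    (hT : ∀ v : Pr K, v.valuation K 6 = 1 → v ∉ T → GoodI v A B ρ) :
    2 * RR (zz (jn A B)) - 3 * hgt (zz (jn A B)) ≤ ∑ v ∈ T, Real.log (Nv v) := by
  have hx := pt_zz h0 h1
  have h3 : (2 * Pool.Agent.Q19.JL.AA 0 (zz (jn A B)) - Pool.Agent.Q19.JL.DD 0 (zz (jn A B))) +
      (2 * Pool.Agent.Q19.JL.AA 1 (zz (jn A B)) - Pool.Agent.Q19.JL.DD 1 (zz (jn A B))) +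
      (2 * Pool.Agent.Q19.JL.AA 2 (zz (jn A B)) - Pool.Agent.Q19.JL.DD 2 (zz (jn A B))) ≤
      ∑ v ∈ sp (zz (jn A B)) \ T6 K, if v ∈ T then Real.log (Nv v) else 0 := by
    unfold Pool.Agent.Q19.JL.AA Pool.Agent.Q19.JL.DD
    rw [Finset.mul_sum, Finset.mul_sum, Finset.mul_sum, ← Finset.sum_sub_distrib,
      ← Finset.sum_sub_distrib, ← Finset.sum_sub_distrib, ← Finset.sum_add_distrib,
      ← Finset.sum_add_distrib]
    refine Finset.sum_le_sum fun v hv => ?_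
    have hv6 := (Finset.mem_sdiff.1 hv).2
    split_ifs with hvT
    · exact any_loc hv6 h0 h1
    · have hgd := hT v (v6 hv6) hvT
      exact good_loc hv6 hD h0 h1 ⟨good_two (v6 hv6) hD hg hgd, good_three (v6 hv6) hD hg hgd⟩
  have h4 : (∑ v ∈ sp (zz (jn A B)) \ T6 K, if v ∈ T then Real.log (Nv v) else 0) ≤
      ∑ v ∈ T, Real.log (Nv v) := by
    rw [← Finset.sum_filter]
    refine Finset.sum_le_sum_of_subset_of_nonneg ?_ fun v _ _ => (log_Nv_pos v).le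
    intro v hv
    exact (Finset.mem_filter.1 hv).2
  refine le_trans ?_ (h3.trans h4)
  have k1 := sum_AA h0 h1
  have k2 := DD_le hx 0
  have k3 := DD_le hx 1
  have k4 := DD_le hx 2
  linarith

/-- **heights of abelian schemes which are forms of powers** -/
theorem scheme_up (K : Type) [Field K] [NumberField K] (κ c : ℝ) (hκ : 1 / 36 < κ) :
    ∃ ν X₀ : ℝ, 0 < ν ∧ 1 ≤ X₀ ∧ ∀ X : ℝ, X₀ ≤ X → ∀ S : Set K, S ⊆ Iv K X →
      (∀ j ∈ S, ∃ (A B : K) (g : ℕ)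
        (ρ : (AlgebraicClosure K ≃ₐ[K] AlgebraicClosure K) →* GL (Fin g) ℤ) (T : Finset (Pr K))
        (τ : InfinitePlace K → UpperHalfPlane), 4 * A ^ 3 + 27 * B ^ 2 ≠ 0 ∧ jn A B = j ∧
        0 < g ∧ (∀ v : Pr K, v.valuation K 6 = 1 → v ∉ T → GoodI v A B ρ) ∧ IsPeriod j τ ∧
        κ * ∑ v ∈ T, Real.log (Nv v) + c ≤ Module.finrank ℚ K * faltings j τ) →
      ((S.ncard : ℕ) : ℝ) ≤ X ^ (-ν) * (Iv K X).ncard := by
  obtain ⟨c1, hc1, hf⟩ := Pool.Agent.Y729.FW.fal_two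
  obtain ⟨n, hn⟩ : ∃ n : ℝ, n = Module.finrank ℚ K := ⟨_, rfl⟩
  obtain ⟨B, hB⟩ : ∃ B, B = Height.logHeight₁ (1728 : K) + c1 * n := ⟨_, rfl⟩
  have hp : 0 < 1 / 12 + 3 * κ := by linarith
  have hM : 1 / 3 < 2 * κ / (1 / 12 + 3 * κ) := by
    rw [div_lt_div_iff₀ (by norm_num) hp]
    linarith
  obtain ⟨ν, X₀, hν, hX₀, h⟩ := exc_prop K ((B / 12 - c + 1) / (1 / 12 + 3 * κ)) hM
  refine ⟨ν, X₀, hν, hX₀, fun X hX S hS hS2 => h X hX S hS fun j hj hcon => ?_⟩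
  obtain ⟨a, b, g, ρ, T, τ, hD, hjE, hg, hT, hτ, hv⟩ := hS2 j hj
  obtain ⟨g0, g1, -⟩ := hS hj
  have k1 := hf K j τ hτ
  have k2 := ht_one j g0 g1
  have k3 := rad_ge hD (by rw [hjE]; exact g0) (by rw [hjE]; exact g1) hg ρ T hT
  rw [hjE] at k3
  rw [← hn] at k1 hv
  have k4 : hgt (zz j) * (1 / 12 + 3 * κ) ≤ 2 * κ * RR (zz j) - (B / 12 - c + 1) := by
    have k5 := mul_le_mul_of_nonneg_right hcon hp.le
    have e1 : (2 * κ / (1 / 12 + 3 * κ) * RR (zz j) - (B / 12 - c + 1) / (1 / 12 + 3 * κ)) *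
        (1 / 12 + 3 * κ) = 2 * κ * RR (zz j) - (B / 12 - c + 1) := by
      field_simp
    rwa [e1] at k5
  have k6 : κ * (2 * RR (zz j) - 3 * hgt (zz j)) ≤ κ * ∑ v ∈ T, Real.log (Nv v) :=
    mul_le_mul_of_nonneg_left k3 (by linarith)
  linarith

end Pool.Agent.Q19.FM
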