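import Pool.Agent.Q19.SU.Iso
import Pool.Agent.Q19.SU.Gen

/-!
# Finite subgroups of powers which are stable under the `B`-th powers of the automorphisms

`Γ` is a finite subgroup of `V ^ g` which is stable under the endomorphisms `F σ`, where `F σ` is the
`B`-th power of the action of `σ`. If enough unipotent matrices occur, `Γ` contains the kernel of an
integral matrix `N` with `B ^ 2 N(Γ) = 0`.
-/

set_option autoImplicit false

namespace Pool.Agent.Q19.FM.Ker

open Matrix Pool.Agent.Q19.SU.Iso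

variable {V : Type*} [AddCommGroup V] {G : Type*}

/-- the `B`-th powers of the two elementary matrices occur on the points killed by `n` -/
def FullB (F : G → V →+ V) (B n : ℕ) : Prop :=
  ∃ P Q : V, Pool.Agent.Q19.SU.Gen.Bas n P Q ∧
    (∃ σ : G, F σ P = P ∧ F σ Q = Q + B • P) ∧ (∃ σ : G, F σ Q = Q ∧ F σ P = P + B • Q)

theorem bez {p k B : ℕ} (hp : p.Prime) (hk : ¬ p ^ k ∣ B) :
    ∃ e f : ℤ, (B : ℤ) * e + (p : ℤ) ^ k * f = (p : ℤ) ^ (k - 1) := by
  obtain ⟨s, hs, hs2⟩ := (Nat.dvd_prime_pow hp).1 (Nat.gcd_dvd_right B (p ^ k))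
  have h1 : s ≠ k := by
    rintro rfl
    exact hk (hs2 ▸ Nat.gcd_dvd_left B (p ^ s))
  have h2 : Nat.gcd B (p ^ k) ∣ p ^ (k - 1) := by
    rw [hs2]
    exact pow_dvd_pow p (by omega)
  obtain ⟨c, hc⟩ := h2
  have h3 := Nat.gcd_eq_gcd_ab B (p ^ k)
  refine ⟨Nat.gcdA B (p ^ k) * c, Nat.gcdB B (p ^ k) * c, ?_⟩
  have h4 : ((p ^ (k - 1) : ℕ) : ℤ) = (Nat.gcd B (p ^ k) : ℤ) * c := by
    rw [hc]
    push_cast
    ring
  push_cast at h3 h4
  rw [h4, h3]
  ring

variable {F : G → V →+ V}

/-- a stable subgroup with an element of order `p ^ k` contains `V[p] ⊗ w` -/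
theorem line {g : ℕ} {p k B : ℕ} (hp : p.Prime) (hk : ¬ p ^ k ∣ B ^ 2) (hF : FullB F B (p ^ k))
    {Γ : AddSubgroup (Fin g → V)} (hst : ∀ σ : G, ∀ x ∈ Γ, (fun i => F σ (x i)) ∈ Γ)
    {x : Fin g → V} (hx : x ∈ Γ) (hpx : p ^ k • x = 0) (hx0 : p ^ (k - 1) • x ≠ 0) :
    ∃ w : Fin g → ℤ, ∃ i : Fin g, w i = 1 ∧ ∀ t : V, p • t = 0 → (fun i => w i • t) ∈ Γ := by
  have hk1 : 1 ≤ k := by
    by_contra h
    have : k = 0 := by omega
    rw [this, pow_zero] at hk
    exact hk (one_dvd _)
  have hpk : (p : ℤ) ^ k = (p : ℤ) ^ (k - 1) * p := by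
    rw [← pow_succ]
    congr 1
    omega
  obtain ⟨P, Q, hB, ⟨σ, s1, s2⟩, ⟨τ, t1, t2⟩⟩ := hF
  have hP : ((p : ℤ) ^ k) • P = 0 := by have := hB.hP; push_cast at this; exact this
  have hQ : ((p : ℤ) ^ k) • Q = 0 := by have := hB.hQ; push_cast at this; exact this
  have hspan : ∀ R : V, ((p : ℤ) ^ k) • R = 0 → ∃ m n : ℤ, R = m • P + n • Q := by
    intro R hR
    exact hB.span R (by push_cast; exact hR)
  have hind : ∀ a b : ℤ, a • P + b • Q = 0 → (p : ℤ) ^ k ∣ a ∧ (p : ℤ) ^ k ∣ b := by
    intro a b hab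
    have := hB.ind a b hab
    push_cast at this
    exact this
  have hxi : ∀ i, ∃ m n : ℤ, x i = m • P + n • Q := fun i => hspan (x i) (by
    have := congrFun hpx i
    have h2 : (p ^ k : ℕ) • x i = 0 := this
    rw [← natCast_zsmul] at h2
    push_cast at h2
    exact h2)
  choose a b hab using hxi
  have hF1 : ∀ m n : ℤ, F σ (m • P + n • Q) = m • P + n • Q + (B * n : ℤ) • P := by
    intro m n
    rw [map_add, map_zsmul, map_zsmul, s1, s2, smul_add, mul_comm, mul_smul, natCast_zsmul]
    abel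
  have hF2 : ∀ m n : ℤ, F τ (m • P + n • Q) = m • P + n • Q + (B * m : ℤ) • Q := by
    intro m n
    rw [map_add, map_zsmul, map_zsmul, t1, t2, smul_add, mul_comm, mul_smul, natCast_zsmul]
    abel
  -- the vector `u`
  obtain ⟨u, huP, huQ, i₀, hi₀⟩ : ∃ u : Fin g → ℤ,
      (fun i => ((B : ℤ) ^ 2 * u i) • P) ∈ Γ ∧ (fun i => ((B : ℤ) ^ 2 * u i) • Q) ∈ Γ ∧
        ∃ i, ¬ (p : ℤ) ∣ u i := by
    have yb : (fun i => ((B : ℤ) * b i) • P) ∈ Γ := by
      have h1 := Γ.sub_mem (hst σ x hx) hx
      have h2 : (fun i => F σ (x i)) - x = fun i => ((B : ℤ) * b i) • P := by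
        funext i
        simp only [Pi.sub_apply]
        rw [hab i, hF1]
        abel
      rw [h2] at h1
      exact h1
    have ya : (fun i => ((B : ℤ) * a i) • Q) ∈ Γ := by
      have h1 := Γ.sub_mem (hst τ x hx) hx
      have h2 : (fun i => F τ (x i)) - x = fun i => ((B : ℤ) * a i) • Q := by
        funext i
        simp only [Pi.sub_apply]
        rw [hab i, hF2]
        abel
      rw [h2] at h1
      exact h1
    by_cases hbn : ∃ i, ¬ (p : ℤ) ∣ b i
    · refine ⟨b, ?_, ?_, hbn⟩
      · have h1 := Γ.zsmul_mem yb B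
        have h2 : ((B : ℤ) • fun i => ((B : ℤ) * b i) • P) = fun i => ((B : ℤ) ^ 2 * b i) • P := by
          funext i
          simp only [Pi.smul_apply]
          rw [← mul_smul]
          congr 1
          ring
        rw [h2] at h1
        exact h1
      · have h1 := Γ.sub_mem (hst τ _ yb) yb
        have h2 : ((fun i => F τ (((B : ℤ) * b i) • P)) - fun i => ((B : ℤ) * b i) • P) =
            fun i => ((B : ℤ) ^ 2 * b i) • Q := by
          funext i
          simp only [Pi.sub_apply]
          have h3 := hF2 ((B : ℤ) * b i) 0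
          rw [zero_smul, add_zero] at h3
          rw [h3, add_sub_cancel_left]
          congr 1
          ring
        rw [h2] at h1
        exact h1
    · push Not at hbn
      refine ⟨a, ?_, ?_, ?_⟩
      · have h1 := Γ.sub_mem (hst σ _ ya) ya
        have h2 : ((fun i => F σ (((B : ℤ) * a i) • Q)) - fun i => ((B : ℤ) * a i) • Q) =
            fun i => ((B : ℤ) ^ 2 * a i) • P := by
          funext i
          simp only [Pi.sub_apply]
          have h3 := hF1 0 ((B : ℤ) * a i)
          rw [zero_smul, zero_add] at h3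
          rw [h3, add_sub_cancel_left]
          congr 1
          ring
        rw [h2] at h1
        exact h1
      · have h1 := Γ.zsmul_mem ya B
        have h2 : ((B : ℤ) • fun i => ((B : ℤ) * a i) • Q) = fun i => ((B : ℤ) ^ 2 * a i) • Q := by
          funext i
          simp only [Pi.smul_apply]
          rw [← mul_smul]
          congr 1
          ring
        rw [h2] at h1
        exact h1
      · by_contra hcon
        push Not at hcon
        apply hx0
        funext i
        obtain ⟨c, hc⟩ := hcon i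
        obtain ⟨d, hd⟩ := hbn i
        have h2 : (p ^ (k - 1) • x) i = ((p : ℤ) ^ (k - 1)) • x i := by
          rw [Pi.smul_apply, ← natCast_zsmul]
          push_cast
          rfl
        rw [h2, hab i, hc, hd, smul_add, ← mul_smul, ← mul_smul,
          show (p : ℤ) ^ (k - 1) * (p * c) = c * p ^ k by rw [hpk]; ring,
          show (p : ℤ) ^ (k - 1) * (p * d) = d * p ^ k by rw [hpk]; ring, mul_smul, mul_smul, hP,
          hQ, smul_zero, smul_zero, add_zero]
        rfl
  have key : ∀ t : V, p • t = 0 → (fun i => u i • t) ∈ Γ := by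
    intro t ht
    have ht' : (p : ℤ) • t = 0 := by rw [natCast_zsmul]; exact ht
    obtain ⟨m, n, hmn⟩ := hspan t (by rw [hpk, mul_smul, ht', smul_zero])
    obtain ⟨hm, hn⟩ := hind (p * m) (p * n) (by
      rw [mul_smul, mul_smul, ← smul_add, ← hmn, ht'])
    have hp0 : (p : ℤ) ≠ 0 := by exact_mod_cast hp.ne_zero
    rw [hpk, mul_comm ((p : ℤ) ^ (k - 1))] at hm hn
    obtain ⟨m', hm'⟩ := (mul_dvd_mul_iff_left hp0).1 hm
    obtain ⟨n', hn'⟩ := (mul_dvd_mul_iff_left hp0).1 hn
    obtain ⟨e, f, hef⟩ := bez hp hk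
    push_cast at hef
    -- `B² e t' = t`
    have h1 : t = ((B : ℤ) ^ 2 * e) • (m' • P + n' • Q) := by
      have h2 : (B : ℤ) ^ 2 * e = (p : ℤ) ^ (k - 1) - f * (p : ℤ) ^ k := by
        linear_combination hef
      rw [h2, sub_smul, mul_smul f, smul_add ((p : ℤ) ^ k), smul_comm ((p : ℤ) ^ k) m' P,
        smul_comm ((p : ℤ) ^ k) n' Q, hP, hQ, smul_zero, smul_zero, add_zero, smul_zero, sub_zero,
        smul_add, ← mul_smul, ← mul_smul, ← hm', ← hn', ← hmn]
    have h2 : (fun i => u i • t) = (e * m') • (fun i => ((B : ℤ) ^ 2 * u i) • P) +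
        (e * n') • (fun i => ((B : ℤ) ^ 2 * u i) • Q) := by
      funext i
      simp only [Pi.add_apply, Pi.smul_apply]
      rw [h1, smul_add, smul_add, ← mul_smul, ← mul_smul, ← mul_smul, ← mul_smul, ← mul_smul,
        ← mul_smul]
      congr 2 <;> ring
    rw [h2]
    exact Γ.add_mem (Γ.zsmul_mem huP _) (Γ.zsmul_mem huQ _)
  -- normalise
  have hcop : IsCoprime (u i₀) (p : ℤ) := by
    have h1 : IsCoprime (p : ℤ) (u i₀) := by
      rcases (Prime.coprime_iff_not_dvd (Nat.prime_iff_prime_int.1 hp)).2 hi₀ with h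
      exact h
    exact h1.symm
  obtain ⟨r, s, hrs⟩ := hcop
  refine ⟨Function.update (fun i => r * u i) i₀ 1, i₀, Function.update_self _ _ _, ?_⟩
  intro t ht
  have h1 := Γ.zsmul_mem (key t ht) r
  have h2 : (fun i => Function.update (fun i => r * u i) i₀ 1 i • t) =
      r • (fun i => u i • t) := by
    funext i
    simp only [Pi.smul_apply]
    by_cases hi : i = i₀
    · subst hi
      rw [Function.update_self, ← mul_smul]
      have h3 : r * u i = 1 - s * p := by linear_combination hrs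
      rw [h3, sub_smul, one_smul, mul_smul, natCast_zsmul, ht, smul_zero, sub_zero]
    · rw [Function.update_of_ne hi, mul_smul]
  rw [h2]
  exact h1

/-- an element which is not killed by `b` has a multiple of order `p ^ k`, where `p ^ k` does not
divide `b` and `p ^ (k - 1)` does -/
theorem exists_pow {W : Type*} [AddCommGroup W] {x : W} (hfo : IsOfFinAddOrder x) {b : ℕ}
    (hb : b ≠ 0) (hx : b • x ≠ 0) : ∃ p k m : ℕ, p.Prime ∧ ¬ p ^ k ∣ b ∧ p ^ (k - 1) ∣ b ∧
      p ^ k • (m • x) = 0 ∧ p ^ (k - 1) • (m • x) ≠ 0 := by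
  have h1 : ¬ addOrderOf x ∣ b := fun h => hx (addOrderOf_dvd_iff_nsmul_eq_zero.1 h)
  rw [Nat.dvd_iff_prime_pow_dvd_dvd] at h1
  push Not at h1
  obtain ⟨p, k₀, hp, h2, h3⟩ := h1
  have hex : ∃ k, ¬ p ^ k ∣ b := ⟨k₀, h3⟩
  classical
  obtain ⟨k, hk⟩ : ∃ k, k = Nat.find hex := ⟨_, rfl⟩
  have hk1 : ¬ p ^ k ∣ b := by rw [hk]; exact Nat.find_spec hex
  have hk2 : k ≤ k₀ := by rw [hk]; exact Nat.find_min' hex h3
  have hk0 : 1 ≤ k := by
    by_contra h
    have : k = 0 := by omega
    rw [this, pow_zero] at hk1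
    exact hk1 (one_dvd _)
  have hk3 : p ^ (k - 1) ∣ b := by
    have := Nat.find_min hex (m := k - 1) (by omega)
    rwa [not_not] at this
  have hd : p ^ k ∣ addOrderOf x := (pow_dvd_pow p hk2).trans h2
  obtain ⟨m, hm⟩ := hd
  have ho : 0 < addOrderOf x := hfo.addOrderOf_pos
  have hm0 : 0 < m := by
    rcases Nat.eq_zero_or_pos m with h | h
    · rw [h, mul_zero] at hm
      omega
    · exact h
  refine ⟨p, k, m, hp, hk1, hk3, ?_, ?_⟩
  · rw [← mul_smul, ← hm]
    exact addOrderOf_nsmul_eq_zero x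
  · rw [← mul_smul]
    intro h
    have h4 := Nat.le_of_dvd (Nat.mul_pos (pow_pos hp.pos _) hm0)
      (addOrderOf_dvd_iff_nsmul_eq_zero.2 h)
    rw [hm] at h4
    have h5 : p ^ (k - 1) < p ^ k := Nat.pow_lt_pow_right hp.one_lt (by omega)
    have h6 := (Nat.mul_lt_mul_right hm0).2 h5
    omega

/-- **sandwich** -/
theorem exists_matrix {g B : ℕ} (hB : B ≠ 0) : ∀ (n : ℕ) (Γ : AddSubgroup (Fin g → V)), Finite Γ →
    Nat.card Γ = n → (∀ σ : G, ∀ x ∈ Γ, (fun i => F σ (x i)) ∈ Γ) →
    (∀ p k : ℕ, p.Prime → ¬ p ^ k ∣ B ^ 2 → p ^ (k - 1) ∣ B ^ 2 → FullB F B (p ^ k)) →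
    ∃ N : Matrix (Fin g) (Fin g) ℤ, N.det ≠ 0 ∧ (∀ x, mulV N x = 0 → x ∈ Γ) ∧
      ∀ x ∈ Γ, (B ^ 2) • mulV N x = 0 := by
  intro n
  induction n using Nat.strong_induction_on with
  | _ n ih =>
    intro Γ hfin hcard hst hfull
    by_cases h1 : ∀ x ∈ Γ, (B ^ 2) • x = 0
    · refine ⟨1, by simp, fun x hx => ?_, fun x hx => ?_⟩
      · rw [mulV_one] at hx
        rw [hx]
        exact Γ.zero_mem
      · rw [mulV_one]
        exact h1 x hx
    · push Not at h1
      obtain ⟨x₁, hx₁, hx₁0⟩ := h1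
      have := hfin
      have hfo : IsOfFinAddOrder x₁ := by
        have h2 : IsOfFinAddOrder (⟨x₁, hx₁⟩ : Γ) := isOfFinAddOrder_of_finite _
        obtain ⟨m, hm, hm2⟩ := isOfFinAddOrder_iff_nsmul_eq_zero.1 h2
        exact isOfFinAddOrder_iff_nsmul_eq_zero.2 ⟨m, hm, by
          have := congrArg Subtype.val hm2
          simpa using this⟩
      obtain ⟨p, k, m, hp, hpk, hpk1, hm1, hm2⟩ := exists_pow hfo (pow_ne_zero 2 hB) hx₁0
      obtain ⟨x, hxd⟩ : ∃ x, x = m • x₁ := ⟨_, rfl⟩
      rw [← hxd] at hm1 hm2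
      have hx : x ∈ Γ := by rw [hxd]; exact Γ.nsmul_mem hx₁ m
      have hk1 : 1 ≤ k := by
        by_contra h
        have : k = 0 := by omega
        rw [this, pow_zero] at hpk
        exact hpk (one_dvd _)
      have hz : p • (p ^ (k - 1) • x) = 0 := by
        rw [← mul_smul, ← pow_succ', show k - 1 + 1 = k by omega]
        exact hm1
      obtain ⟨w, i₀, hwk, hw⟩ := line hp hpk (hfull p k hp hpk hpk1) hst hx hm1 hm2
      set c : Fin g → ℤ := Function.update (fun i => - w i) i₀ (p - 1) with hc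
      have hNk : ∀ y : Fin g → V, mulV (El c i₀) y i₀ = p • y i₀ := by
        intro y
        rw [mulV_El, hc, Function.update_self, sub_smul, one_smul, natCast_zsmul]
        abel
      have hNi : ∀ (y : Fin g → V) (i : Fin g), i ≠ i₀ → mulV (El c i₀) y i = y i - w i • y i₀ := by
        intro y i hi
        rw [mulV_El, hc, Function.update_of_ne hi, neg_smul, sub_eq_add_neg]
      have hker : ∀ y : Fin g → V, mulV (El c i₀) y = 0 → y ∈ Γ := by
        intro y hy
        have e1 : p • y i₀ = 0 := by rw [← hNk, hy]; rfl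
        have e2 : y = fun i => w i • y i₀ := by
          funext i
          by_cases hi : i = i₀
          · rw [hi, hwk, one_smul]
          · have h3 := hNi y i hi
            rw [hy] at h3
            have h4 : (0 : V) = y i - w i • y i₀ := h3
            rw [eq_comm, sub_eq_zero] at h4
            exact h4
        rw [e2]
        exact hw _ e1
      have hPex : ∃ y : Fin g → V, y ≠ 0 ∧ mulV (El c i₀) y = 0 := by
        obtain ⟨i, hi⟩ : ∃ i, (p ^ (k - 1) • x : Fin g → V) i ≠ 0 := by
          by_contra hcon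
          push Not at hcon
          exact hm2 (funext hcon)
        refine ⟨fun j => w j • (p ^ (k - 1) • x : Fin g → V) i, ?_, ?_⟩
        · intro h3
          apply hi
          have h4 := congrFun h3 i₀
          simp only [hwk, one_smul] at h4
          exact h4
        · funext j
          by_cases hj : j = i₀
          · rw [hj, hNk]
            simp only [hwk, one_smul]
            exact congrFun hz i
          · rw [hNi _ _ hj]
            simp only [hwk, one_smul, sub_self]
            rfl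
      set Γ' : AddSubgroup (Fin g → V) := Γ.map (mulV (El c i₀)) with hΓ'
      have hfin' : Finite Γ' := by
        have : (Γ' : Set (Fin g → V)).Finite := by
          rw [hΓ', AddSubgroup.coe_map]
          exact (Set.toFinite (Γ : Set (Fin g → V))).image _
        exact this.to_subtype
      have hdvd : Nat.card Γ' ∣ n := by
        rw [← hcard]
        exact AddSubgroup.card_map_dvd Γ (mulV (El c i₀))
      have hlt : Nat.card Γ' < n := by
        rcases lt_or_eq_of_le (Nat.le_of_dvd (by rw [← hcard]; exact Nat.card_pos) hdvd) with h | h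
        · exact h
        · exfalso
          obtain ⟨y, hy0, hy⟩ := hPex
          have hsurj : Function.Surjective (fun z : Γ => (⟨mulV (El c i₀) z.1,
              AddSubgroup.mem_map_of_mem _ z.2⟩ : Γ')) := by
            rintro ⟨z, hz⟩
            obtain ⟨t, ht, rfl⟩ := AddSubgroup.mem_map.1 hz
            exact ⟨⟨t, ht⟩, rfl⟩
          have hinj := (Nat.bijective_iff_surjective_and_card _).2 ⟨hsurj, by rw [hcard, h]⟩
          have hyΓ := hker y hy
          have h4 : (⟨y, hyΓ⟩ : Γ) = 0 := by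
            apply hinj.1
            apply Subtype.ext
            show mulV (El c i₀) y = mulV (El c i₀) 0
            rw [hy, map_zero]
          exact hy0 (congrArg Subtype.val h4)
      have hst' : ∀ σ : G, ∀ y ∈ Γ', (fun i => F σ (y i)) ∈ Γ' := by
        intro σ y hy
        obtain ⟨z, hz, rfl⟩ := AddSubgroup.mem_map.1 hy
        refine AddSubgroup.mem_map.2 ⟨fun i => F σ (z i), hst σ z hz, ?_⟩
        funext i
        rw [mulV_El, mulV_El, map_add, map_zsmul]
      obtain ⟨N', hN'0, hN'1, hN'2⟩ := ih (Nat.card Γ') hlt Γ' hfin' rfl hst' hfull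
      refine ⟨N' * El c i₀, ?_, fun y hy => ?_, fun y hy => ?_⟩
      · rw [det_mul, det_El]
        refine mul_ne_zero hN'0 ?_
        rw [hc, Function.update_self]
        have := hp.pos
        omega
      · rw [mulV_mul] at hy
        obtain ⟨z, hz, hzy⟩ := AddSubgroup.mem_map.1 (hN'1 _ hy)
        have h5 : y - z ∈ Γ := hker _ (by rw [map_sub, hzy, sub_self])
        have h6 := Γ.add_mem h5 hz
        rwa [sub_add_cancel] at h6
      · rw [mulV_mul]
        exact hN'2 _ (AddSubgroup.mem_map_of_mem _ hy)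

end Pool.Agent.Q19.FM.Ker
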