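import Pool.Agent.Q19.SU.FinN
import Pool.Agent.Q19.FM.Ker
import Pool.Agent.Q19.FM.Glob

/-!
# Abelian varieties isogenous to forms of powers
-/

set_option autoImplicit false

namespace Pool.Agent.Q19.FM

open NumberField IsDedekindDomain Pool.Agent.Q19.SU Pool.Agent.Q19.JL
open Pool.Agent.Y673.Loc (EP act)
open Pool.Agent.W223.AK (ht)

variable {K : Type} [Field K] [NumberField K]

theorem fullB_gen {V G : Type*} [AddCommGroup V] [Group G] (ρ : G → V →+ V)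
    (hmul : ∀ σ τ v, ρ (σ * τ) v = ρ σ (ρ τ v)) (hone : ∀ v, ρ 1 v = v) {n : ℕ} {P Q : V}
    (hB : Gen.Bas n P Q)
    (hsl : ∀ a b c d : ℤ, (n : ℤ) ∣ a * d - b * c - 1 →
      ∃ σ : G, ρ σ P = a • P + c • Q ∧ ρ σ Q = b • P + d • Q) (b : ℕ) :
    Ker.FullB (fun σ : G => ρ (σ ^ b)) b n := by
  obtain ⟨σ, s1, s2⟩ := hsl 1 1 0 1 (by norm_num)
  obtain ⟨τ, t1, t2⟩ := hsl 1 0 1 1 (by norm_num)
  rw [one_smul, zero_smul, add_zero] at s1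
  rw [one_smul, one_smul] at s2 t1
  rw [zero_smul, one_smul, zero_add] at t2
  have k1 : ∀ m : ℕ, ρ (σ ^ m) P = P ∧ ρ (σ ^ m) Q = Q + m • P := by
    intro m
    induction m with
    | zero => rw [pow_zero, hone, hone, zero_smul, add_zero]; exact ⟨rfl, rfl⟩
    | succ m ih =>
      rw [pow_succ', hmul, hmul, ih.1, ih.2, map_add, map_nsmul, s1, s2, succ_nsmul]
      refine ⟨rfl, ?_⟩
      abel
  have k2 : ∀ m : ℕ, ρ (τ ^ m) Q = Q ∧ ρ (τ ^ m) P = P + m • Q := by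
    intro m
    induction m with
    | zero => rw [pow_zero, hone, hone, zero_smul, add_zero]; exact ⟨rfl, rfl⟩
    | succ m ih =>
      rw [pow_succ', hmul, hmul, ih.1, ih.2, map_add, map_nsmul, t1, t2, succ_nsmul]
      refine ⟨rfl, ?_⟩
      abel
  exact ⟨P, Q, hB, ⟨σ, k1 b⟩, ⟨τ, k2 b⟩⟩

open scoped Classical in
theorem fullB_of {A B : K} {n : ℕ} (h : HasSLn A B n) (b : ℕ) :
    Ker.FullB (fun σ : AlgebraicClosure K ≃ₐ[K] AlgebraicClosure K => act A B (σ ^ b)) b n := by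
  obtain ⟨P, Q, hB, hsl⟩ := h
  exact fullB_gen (fun σ : AlgebraicClosure K ≃ₐ[K] AlgebraicClosure K => act A B σ)
    (fun σ τ v => act_mul A B σ τ v) (fun v => act_one A B v) hB hsl b

theorem lev_pow {t : ℝ} {j : K} {b : ℕ} (hb : b ≠ 0)
    (hC : Module.finrank ℚ K * Real.log ((b : ℝ) ^ 4) ≤ (1 - t) * ht j) {p k : ℕ} (hp : p.Prime)
    (h1 : ¬ p ^ k ∣ b ^ 2) (h2 : p ^ (k - 1) ∣ b ^ 2) : Lev t j (p ^ k) := by
  have hb2 : 0 < b ^ 2 := pow_pos (Nat.pos_of_ne_zero hb) 2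
  rcases Nat.lt_or_ge k 2 with hk | hk
  · left
    have h3 : k = 0 ∨ k = 1 := by omega
    rcases h3 with rfl | rfl
    · rw [pow_zero] at h1
      exact absurd (one_dvd _) h1
    · rw [pow_one]
      exact hp
  · right; left
    have h3 : p ∣ b ^ 2 := (dvd_pow_self p (by omega : k - 1 ≠ 0)).trans h2
    have h4 : p ≤ b ^ 2 := Nat.le_of_dvd hb2 h3
    have h5 : p ^ (k - 1) ≤ b ^ 2 := Nat.le_of_dvd hb2 h2
    have h6 : p ^ k ≤ b ^ 4 := by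
      have e : p ^ k = p ^ (k - 1) * p := by
        rw [← pow_succ]
        congr 1
        omega
      rw [e, show b ^ 4 = b ^ 2 * b ^ 2 by ring]
      exact Nat.mul_le_mul h5 h4
    have h7 : (0 : ℝ) < ((p ^ k : ℕ) : ℝ) := by exact_mod_cast pow_pos hp.pos k
    have h8 : Real.log ((p ^ k : ℕ) : ℝ) ≤ Real.log ((b : ℝ) ^ 4) :=
      Real.log_le_log h7 (by exact_mod_cast h6)
    exact (mul_le_mul_of_nonneg_left h8 (Nat.cast_nonneg _)).trans hC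

open scoped Classical in
/-- the structure of the finite subgroups which are stable under the action of a form -/
def Sand (M : ℕ) (j : K) : Prop :=
  ∀ A B : K, 4 * A ^ 3 + 27 * B ^ 2 ≠ 0 → jn A B = j → ∀ (g : ℕ)
    (ρ : (AlgebraicClosure K ≃ₐ[K] AlgebraicClosure K) →* GL (Fin g) ℤ),
    Finite ρ.range → Nat.card ρ.range ≤ M → ∀ Γ : AddSubgroup (Fin g → PA A B),
      (Γ : Set (Fin g → PA A B)).Finite →
      (∀ (σ : AlgebraicClosure K ≃ₐ[K] AlgebraicClosure K) (x : Fin g → PA A B), x ∈ Γ →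
        tw ρ σ x ∈ Γ) →
      ∃ N : Matrix (Fin g) (Fin g) ℤ, N.det ≠ 0 ∧
        (∀ x : Fin g → PA A B, (∀ i, ∑ k, N i k • x k = 0) → x ∈ Γ) ∧
        ∀ x : Fin g → PA A B, x ∈ Γ → ∀ i, (M.factorial ^ 2) • ∑ k, N i k • x k = 0

theorem rho_pow {g M : ℕ} (ρ : (AlgebraicClosure K ≃ₐ[K] AlgebraicClosure K) →* GL (Fin g) ℤ)
    (h1 : Finite ρ.range) (h2 : Nat.card ρ.range ≤ M)
    (σ : AlgebraicClosure K ≃ₐ[K] AlgebraicClosure K) : ρ (σ ^ M.factorial) = 1 := by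
  have h3 : (⟨ρ σ, ⟨σ, rfl⟩⟩ : ρ.range) ^ Nat.card ρ.range = 1 := pow_card_eq_one'
  have h4 : (ρ σ) ^ Nat.card ρ.range = 1 := by
    have := congrArg Subtype.val h3
    simpa using this
  have h5 : Nat.card ρ.range ∣ M.factorial := Nat.dvd_factorial Nat.card_pos h2
  obtain ⟨c, hc⟩ := h5
  rw [map_pow, hc, pow_mul, h4, one_pow]

open scoped Classical in
theorem tw_one {A B : K} {g : ℕ}
    (ρ : (AlgebraicClosure K ≃ₐ[K] AlgebraicClosure K) →* GL (Fin g) ℤ)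
    {σ : AlgebraicClosure K ≃ₐ[K] AlgebraicClosure K} (h : ρ σ = 1) (x : Fin g → PA A B) :
    tw ρ σ x = fun i => ga A B σ (x i) := by
  have e : tw ρ σ x = fun i => ∑ k, ((1 : GL (Fin g) ℤ) : Matrix (Fin g) (Fin g) ℤ) i k •
      ga A B σ (x k) := by
    unfold tw
    rw [h]
  rw [e]
  funext i
  exact congrFun (Iso.mulV_one (fun k => ga A B σ (x k))) i

open scoped Classical in
theorem sand_of {t : ℝ} {j : K} (h : AllSLn t j) {M : ℕ}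
    (hC : Module.finrank ℚ K * Real.log ((M.factorial : ℝ) ^ 4) ≤ (1 - t) * ht j) : Sand M j := by
  intro A B hD hj g ρ h1 h2 Γ hfin hst
  have hM : M.factorial ≠ 0 := Nat.factorial_ne_zero M
  obtain ⟨N, hN, hN1, hN2⟩ := Ker.exists_matrix (V := PA A B)
    (F := fun σ : AlgebraicClosure K ≃ₐ[K] AlgebraicClosure K => ga A B (σ ^ M.factorial))
    hM (Nat.card Γ) Γ hfin.to_subtype rfl (by
      intro σ x hx
      have k1 := hst (σ ^ M.factorial) x hx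
      rw [tw_one ρ (rho_pow ρ h1 h2 σ)] at k1
      exact k1) (by
      intro p k hp hpk hpk1
      exact fullB_of (h A B hD hj (p ^ k) (Nat.one_le_pow _ _ hp.pos)
        (lev_pow hM hC hp hpk hpk1)) M.factorial)
  refine ⟨N, hN, fun x hx => hN1 x (funext hx), fun x hx i => ?_⟩
  exact congrFun (hN2 x hx) i

/-- **union bound** -/
theorem union {P₁ P₂ : K → Prop} {ν₁ X₁ ν₂ X₂ : ℝ} (hν₁ : 0 < ν₁) (hν₂ : 0 < ν₂)
    (h₁ : ∀ X : ℝ, X₁ ≤ X → ∀ S : Set K, S ⊆ Iv K X → (∀ j ∈ S, ¬ P₁ j) →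
      ((S.ncard : ℕ) : ℝ) ≤ X ^ (-ν₁) * (Iv K X).ncard)
    (h₂ : ∀ X : ℝ, X₂ ≤ X → ∀ S : Set K, S ⊆ Iv K X → (∀ j ∈ S, ¬ P₂ j) →
      ((S.ncard : ℕ) : ℝ) ≤ X ^ (-ν₂) * (Iv K X).ncard) :
    ∃ ν X₀ : ℝ, 0 < ν ∧ ∀ X : ℝ, X₀ ≤ X → ∀ S : Set K, S ⊆ Iv K X →
      (∀ j ∈ S, ¬ (P₁ j ∧ P₂ j)) → ((S.ncard : ℕ) : ℝ) ≤ X ^ (-ν) * (Iv K X).ncard := by
  obtain ⟨ν, hν⟩ : ∃ ν, ν = min ν₁ ν₂ := ⟨_, rfl⟩
  have hν0 : 0 < ν := by rw [hν]; exact lt_min hν₁ hν₂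
  obtain ⟨X₃, hX₃, hb⟩ := Pool.Agent.Q19.JL.big 2 (ν / 2) (by linarith)
  refine ⟨ν / 2, max (max X₁ X₂) X₃, by linarith, fun X hX S hS hS2 => ?_⟩
  have l1 : X₁ ≤ X := ((le_max_left _ _).trans (le_max_left _ _)).trans hX
  have l2 : X₂ ≤ X := ((le_max_right _ _).trans (le_max_left _ _)).trans hX
  have l3 : X₃ ≤ X := (le_max_right _ _).trans hX
  have l4 : 1 ≤ X := hX₃.trans l3
  have k1 := h₁ X l1 {j | j ∈ S ∧ ¬ P₁ j} (fun j hj => hS hj.1) (fun j hj => hj.2)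
  have k2 := h₂ X l2 {j | j ∈ S ∧ ¬ P₂ j} (fun j hj => hS hj.1) (fun j hj => hj.2)
  have k3 : S.ncard ≤ ({j | j ∈ S ∧ ¬ P₁ j} ∪ {j | j ∈ S ∧ ¬ P₂ j} : Set K).ncard := by
    refine Set.ncard_le_ncard ?_ ?_
    · intro j hj
      by_cases hP : P₁ j
      · exact Or.inr ⟨hj, fun h => hS2 j hj ⟨hP, h⟩⟩
      · exact Or.inl ⟨hj, hP⟩
    · exact (Iv_fin K l4).subset (Set.union_subset (fun j hj => hS hj.1) (fun j hj => hS hj.1))
  have k4 := k3.trans (Set.ncard_union_le _ _)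
  have k5 : ((S.ncard : ℕ) : ℝ) ≤ ({j | j ∈ S ∧ ¬ P₁ j}.ncard : ℝ) +
      ({j | j ∈ S ∧ ¬ P₂ j}.ncard : ℝ) := by exact_mod_cast k4
  have m1 : X ^ (-ν₁) ≤ X ^ (-ν) :=
    Real.rpow_le_rpow_of_exponent_le l4 (by rw [hν]; exact neg_le_neg (min_le_left _ _))
  have m2 : X ^ (-ν₂) ≤ X ^ (-ν) :=
    Real.rpow_le_rpow_of_exponent_le l4 (by rw [hν]; exact neg_le_neg (min_le_right _ _))
  have m3 : 2 * X ^ (-ν) ≤ X ^ (-(ν / 2)) := by
    have e : X ^ (-(ν / 2)) = X ^ (ν / 2) * X ^ (-ν) := by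
      rw [← Real.rpow_add (by linarith)]
      congr 1
      ring
    rw [e]
    exact mul_le_mul_of_nonneg_right (hb X l3) (Real.rpow_nonneg (by linarith) _)
  have hN : (0 : ℝ) ≤ (Iv K X).ncard := Nat.cast_nonneg _
  calc ((S.ncard : ℕ) : ℝ) ≤ X ^ (-ν₁) * (Iv K X).ncard + X ^ (-ν₂) * (Iv K X).ncard := by
        linarith
    _ ≤ X ^ (-ν) * (Iv K X).ncard + X ^ (-ν) * (Iv K X).ncard :=
        add_le_add (mul_le_mul_of_nonneg_right m1 hN) (mul_le_mul_of_nonneg_right m2 hN)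
    _ = 2 * X ^ (-ν) * (Iv K X).ncard := by ring
    _ ≤ X ^ (-(ν / 2)) * (Iv K X).ncard := mul_le_mul_of_nonneg_right m3 hN

theorem sand_prop (K : Type) [Field K] [NumberField K] (M : ℕ) :
    ∃ ν X₀ : ℝ, 0 < ν ∧ 1 ≤ X₀ ∧ ∀ X : ℝ, X₀ ≤ X → ∀ S : Set K, S ⊆ Iv K X →
      (∀ j ∈ S, ¬ Sand M j) → ((S.ncard : ℕ) : ℝ) ≤ X ^ (-ν) * (Iv K X).ncard := by
  obtain ⟨ν, X₀, h1, h2, h3⟩ := n_prop K (1 / 2)
    (2 * (Module.finrank ℚ K * Real.log ((M.factorial : ℝ) ^ 4))) (by norm_num)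
  refine ⟨ν, X₀, h1, h2, fun X hX S hS hS2 => h3 X hX S hS fun j hj hc => hS2 j hj ?_⟩
  obtain ⟨c1, -, c3⟩ := hc
  exact sand_of c1 (by linarith)

end Pool.Agent.Q19.FM
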