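import Mathlib

/-!
# Valuation rings of the algebraic closure above a prime, and radicals of elements of the base field
-/

set_option autoImplicit false

namespace Pool.Agent.Q19.FM

open NumberField IsDedekindDomain

variable {K : Type} [Field K] [NumberField K]

/-- there is a valuation ring of the algebraic closure above each prime -/
theorem exists_above (v : HeightOneSpectrum (𝓞 K)) :
    ∃ O : ValuationSubring (AlgebraicClosure K), ∀ x : K,
      algebraMap K (AlgebraicClosure K) x ∈ O ↔ v.valuation K x ≤ 1 := by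
  set R := (v.valuation K).valuationSubring with hR
  obtain ⟨O, hO, hloc⟩ := IsLocalRing.exists_factor_valuationRing (K := AlgebraicClosure K)
    ((algebraMap K (AlgebraicClosure K)).comp R.subtype)
  refine ⟨O, fun x => ⟨fun h => ?_, fun h => hO ⟨x, h⟩⟩⟩
  by_contra hv
  rw [not_le] at hv
  have hx0 : x ≠ 0 := by
    rintro rfl
    rw [map_zero] at hv
    exact absurd hv (by simp)
  have hinv : v.valuation K x⁻¹ < 1 := by
    rw [map_inv₀]
    exact inv_lt_one_of_one_lt₀ hv
  have hy : x⁻¹ ∈ R := hinv.le
  have hu : IsUnit ((((algebraMap K (AlgebraicClosure K)).comp R.subtype).codRestrict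
      O.toSubring hO) ⟨x⁻¹, hy⟩) := by
    refine IsUnit.of_mul_eq_one ⟨algebraMap K (AlgebraicClosure K) x, h⟩ ?_
    apply Subtype.ext
    change algebraMap K (AlgebraicClosure K) x⁻¹ * algebraMap K (AlgebraicClosure K) x = 1
    rw [← map_mul, inv_mul_cancel₀ hx0, map_one]
  have hu2 := hloc.map_nonunit _ hu
  obtain ⟨⟨b, hb⟩, hb2⟩ := isUnit_iff_exists_inv.1 hu2
  have hb3 : x⁻¹ * b = 1 := congrArg Subtype.val hb2
  have hb4 : b = x := by
    field_simp at hb3
    exact hb3
  rw [hb4] at hb
  exact absurd hb (not_le.2 hv)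

/-- a radical `z` of an element `c` of the base field, whose value is the value of an element of the
base field -/
theorem radical {v : HeightOneSpectrum (𝓞 K)} {O : ValuationSubring (AlgebraicClosure K)}
    (hO : ∀ x : K, algebraMap K (AlgebraicClosure K) x ∈ O ↔ v.valuation K x ≤ 1)
    {z : AlgebraicClosure K} {c y : K} (hc : c ≠ 0) (hy : y ≠ 0) {k : ℕ}
    (hz : z ^ k = algebraMap K (AlgebraicClosure K) c)
    (h1 : z / algebraMap K (AlgebraicClosure K) y ∈ O)
    (h2 : algebraMap K (AlgebraicClosure K) y / z ∈ O) :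
    v.valuation K c = v.valuation K y ^ k := by
  have h3 := pow_mem h1 k
  have h4 := pow_mem h2 k
  rw [div_pow, hz, ← map_pow, ← map_div₀, hO, map_div₀, map_pow] at h3
  rw [div_pow, hz, ← map_pow, ← map_div₀, hO, map_div₀, map_pow] at h4
  have p1 : 0 < v.valuation K c := by
    rw [zero_lt_iff, Valuation.ne_zero_iff]
    exact hc
  have p2 : 0 < v.valuation K y ^ k := by
    rw [zero_lt_iff]
    exact pow_ne_zero k ((Valuation.ne_zero_iff _).2 hy)
  rw [div_le_one₀ p2] at h3
  rw [div_le_one₀ p1] at h4
  exact le_antisymm h3 h4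

end Pool.Agent.Q19.FM
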